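import Mathlib
import Pool.Agent.Helper64.MC.St1

/-!
MP_4042d8_co, section D, part I: `2 ≤ j`, all triangle-free cubic graphs.
Combinatorial half of the sequential method (text: ando_sec_D.txt). A state is a finset `H` of
vertices (the hard set); everything below depends only on the original colouring `c` and on `H`.
-/

set_option autoImplicit false
set_option linter.unusedSectionVars false
set_option linter.unusedVariables false

namespace Pool.Agent.Helper33.MC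

open Pool.Agent.Helper27.MC Pool.Agent.Helper51.MC Pool.Agent.Helper88.MC Pool.Agent.Helper64.MC

section defs

variable {V : Type} [Fintype V] [DecidableEq V] (G : SimpleGraph V) [DecidableRel G.Adj]

/-- `v` and all its neighbours are outside `H`. -/
def Clr (H : Finset V) (v : V) : Prop := v ∉ H ∧ ∀ w, G.Adj v w → w ∉ H

/-- live free vertex -/
def Live (c : V → Bool) (H : Finset V) (f : V) : Prop := f ∈ Fr G c ∧ Clr G H f

/-- available vertex of `T1` -/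
def Avl (c : V → Bool) (H : Finset V) (t : V) : Prop := t ∈ T1 G c ∧ Clr G H t

/-- every mate of `x` is `u` or in `H` (for `x ∉ H`: `x` is of type `B`, or open, or the mate of `u`) -/
def Bare (c : V → Bool) (H : Finset V) (u x : V) : Prop := ∀ y, Rm G c x y → y = u ∨ y ∈ H

/-- live slot -/
def LS (c : V → Bool) (H : Finset V) (f x : V) : Prop :=
  f ∈ Fr G c ∧ tA G c x ∧ G.Adj f x ∧ Clr G H f ∧ Clr G H x

/-- `N`-slot -/
def NS (c : V → Bool) (H : Finset V) (f x : V) : Prop :=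
  LS G c H f x ∧ ∀ w, G.Adj x w → w ≠ f → Bare G c H f w

/-- `M`-slot with its vertex `t` of `T1`, not open, and `r` the mate of `t` -/
def MS (c : V → Bool) (H : Finset V) (u a t r : V) : Prop :=
  LS G c H u a ∧ G.Adj a t ∧ t ≠ u ∧ t ∈ T1 G c ∧ Rm G c t r ∧ r ∉ H

/-- good slot -/
def GS (c : V → Bool) (H : Finset V) (f x : V) : Prop :=
  LS G c H f x ∧
  ((∀ w, G.Adj x w → w ≠ f → Bare G c H f w) ∨
   (∃ t, G.Adj x t ∧ t ≠ f ∧ Avl G c H t) ∨
   (∃ g, G.Adj x g ∧ g ≠ f ∧ Live G c H g ∧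
     ((∃ m, Rm G c f m ∧ (Live G c H m ∨ Avl G c H m)) ∨ ∃ m, Rm G c g m ∧ Live G c H m)))

open Classical in
/-- the good slots -/
noncomputable def good (c : V → Bool) (H : Finset V) : Finset (V × V) :=
  Finset.univ.filter (fun p => GS G c H p.1 p.2)

open Classical in
/-- the live free vertices -/
noncomputable def live (c : V → Bool) (H : Finset V) : Finset V :=
  Finset.univ.filter (fun f => Live G c H f)

/-- square `(s1, s2; a, b)`, mates `v1 v2`, third neighbours `w1` of `a` and `w2` of `b` -/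
structure Sqr (c : V → Bool) (s1 s2 a b v1 v2 w1 w2 : V) : Prop where
  h1 : Sv G c s1 v1 a b
  h2 : Sv G c s2 v2 a b
  ha : Av G c a s1 s2 w1
  hb : Av G c b s1 s2 w2
  ta : tA G c a
  tb : tA G c b
  tw1 : tB G c w1
  tw2 : tB G c w2
  hw : w1 ≠ w2

/-- The facts used in section D (triangle-free, `2 ≤ j`). -/
structure Fx (c : V → Bool) : Prop where
  reg : G.IsRegularOfDegree 3
  tf : TF G
  mu1 : ∀ v, mu G c v ≤ 1
  f1 : ∀ q s s', tQ G c q → tS G c s → tS G c s' → G.Adj q s → G.Adj q s' → s = s'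
  f2 : ∀ a s1 s2 s3, tA G c a → tS G c s1 → tS G c s2 → tS G c s3 → G.Adj a s1 → G.Adj a s2 →
    G.Adj a s3 → s1 = s2 ∨ s1 = s3 ∨ s2 = s3
  f3 : ∀ a s1 s2, tA G c a → s1 ∈ Fr G c → s2 ∈ Fr G c → s1 ≠ s2 → G.Adj a s1 → G.Adj a s2 →
    ∃ b v1 v2 w1 w2, Sqr G c s1 s2 a b v1 v2 w1 w2
  r3 : ∀ s1 s2 a b v1 v2 w1 w2 n1 n2 f, Sqr G c s1 s2 a b v1 v2 w1 w2 → N3 G w1 a n1 n2 →
    tA G c n1 → tA G c n2 → f ∈ Fr G c → f ≠ v1 → f ≠ v2 → G.Adj f n1 → G.Adj f n2

/-- invariant of the hard set -/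
def Inv (c : V → Bool) (H : Finset V) : Prop := ∀ q q', tQ G c q → Rm G c q q' → q ∈ H → q' ∈ H

/-! ### operations (effect on `H`) -/

/-- `U(s)`, `s` live free -/
def OpU (c : V → Bool) (H H' : Finset V) : Prop :=
  ∃ s m a b, Sv G c s m a b ∧ tA G c a ∧ tA G c b ∧ Clr G H s ∧ H' = H ∪ {s, a, b}

/-- `N(u,a)` -/
def OpN (c : V → Bool) (H H' : Finset V) : Prop :=
  ∃ u v a b x y, Sv G c u v a b ∧ Av G c a u x y ∧ tA G c a ∧ tA G c b ∧ Clr G H u ∧ Clr G H a ∧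
    Bare G c H u x ∧ Bare G c H u y ∧ H' = H ∪ {u, b, x, a, y}

/-- `M(u,a)`: `P4-` formed by `x a t r` -/
def OpM (c : V → Bool) (H H' : Finset V) : Prop :=
  ∃ u v a b x t r, Sv G c u v a b ∧ Av G c a u x t ∧ tA G c a ∧ tA G c b ∧ Clr G H u ∧
    Clr G H a ∧ Bare G c H u x ∧ Rm G c t r ∧ r ≠ u ∧ r ∉ H ∧ H' = H ∪ {u, b, x, a, t, r}

/-- `U4(t)`: `P4+` formed by `a t q q'` -/
def OpV (c : V → Bool) (H H' : Finset V) : Prop :=
  ∃ t r a q q', Sv G c t r a q ∧ tA G c a ∧ tQ G c q ∧ Rm G c q q' ∧ Clr G H t ∧ q' ∉ H ∧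
    H' = H ∪ {t, a, q, q'}

/-- Runs: `i` = number of slot operations made, `k` = number of unmatched `P3-`. -/
inductive Run (c : V → Bool) : ℕ → ℕ → Finset V → Prop
  | start : Run c 0 0 ∅
  | n {i k : ℕ} {H H' : Finset V} : Run c i k H → OpN G c H H' → Run c (i + 1) (k + 1) H'
  | un {i k : ℕ} {H H1 H' : Finset V} : Run c i k H → OpU G c H H1 → OpN G c H1 H' →
      Run c (i + 1) k H'
  | mv {i k : ℕ} {H H1 H' : Finset V} : Run c i k H → OpM G c H H1 → OpV G c H1 H' →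
      Run c (i + 1) k H'
  | u {i k : ℕ} {H H' : Finset V} : Run c i (k + 1) H → OpU G c H H' → Run c i k H'

/-- loss bounds of one step -/
def Loss (c : V → Bool) (H H' : Finset V) (m n : ℕ) : Prop :=
  (good G c H \ good G c H').card ≤ m ∧ (live G c H \ live G c H').card ≤ n

/-- an `N`-slot exists -/
def PN (c : V → Bool) (H : Finset V) : Prop := ∃ u a, NS G c H u a

/-- Case 2: an `M`-slot `(u,a)`, `r` in an intact square without live free mates -/
def P2 (c : V → Bool) (H : Finset V) : Prop :=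
  ∃ u a t r r' x y v' w w', MS G c H u a t r ∧ Sqr G c r r' x y t v' w w' ∧ Live G c H r ∧
    Live G c H r' ∧ ¬ Live G c H v'

/-- Case 3: an intact square with a live free mate and a live slot -/
def P3 (c : V → Bool) (H : Finset V) : Prop :=
  ∃ s1 s2 a b v1 v2 w1 w2, Sqr G c s1 s2 a b v1 v2 w1 w2 ∧ Live G c H s1 ∧ Live G c H s2 ∧
    LS G c H s1 a ∧ Live G c H v2

/-- Case 4: an `M`-slot with `r` live free -/
def P4 (c : V → Bool) (H : Finset V) : Prop :=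
  ∃ u a t r, MS G c H u a t r ∧ Live G c H r

end defs

/-! ### Facts -/

/-- D_FX: the facts for optimal colourings. -/
def ST_DFX : Prop :=
  ∀ (V : Type) [Fintype V] [DecidableEq V] (G : SimpleGraph V) [DecidableRel G.Adj],
    G.IsRegularOfDegree 3 → TF G → ∀ (c : V → Bool) (j : ℕ), 2 ≤ j → Opt G c j → Fx G c

/-- D_F3: the square of two free vertices at an `A`-vertex (for D_FX). -/
def ST_DF3 : Prop :=
  ∀ (V : Type) [Fintype V] [DecidableEq V] (G : SimpleGraph V) [DecidableRel G.Adj],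
    G.IsRegularOfDegree 3 → TF G → ∀ (c : V → Bool) (j : ℕ), 2 ≤ j → Opt G c j →
      ∀ a s1 s2, tA G c a → s1 ∈ Fr G c → s2 ∈ Fr G c → s1 ≠ s2 → G.Adj a s1 → G.Adj a s2 →
        ∃ b v1 v2 w1 w2, Sqr G c s1 s2 a b v1 v2 w1 w2

/-- D_SW: the swap of a square is neutral. -/
def ST_DSW : Prop :=
  ∀ (V : Type) [Fintype V] [DecidableEq V] (G : SimpleGraph V) [DecidableRel G.Adj],
    G.IsRegularOfDegree 3 → TF G → ∀ (c : V → Bool) (j : ℕ), 2 ≤ j → Opt G c j →
      ∀ s1 s2 a b v1 v2 w1 w2, Sqr G c s1 s2 a b v1 v2 w1 w2 → Opt G (flp c {s1, s2, a, b}) j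

/-- D_R3: fact R3 (from D_SW, D_F3 and F2 in the swapped colouring). -/
def ST_DR3 : Prop :=
  ∀ (V : Type) [Fintype V] [DecidableEq V] (G : SimpleGraph V) [DecidableRel G.Adj],
    G.IsRegularOfDegree 3 → TF G → ∀ (c : V → Bool) (j : ℕ), 2 ≤ j → Opt G c j →
      ∀ s1 s2 a b v1 v2 w1 w2 n1 n2 f, Sqr G c s1 s2 a b v1 v2 w1 w2 → N3 G w1 a n1 n2 →
        tA G c n1 → tA G c n2 → f ∈ Fr G c → f ≠ v1 → f ≠ v2 → G.Adj f n1 → G.Adj f n2

/-- D_ST: the start. -/
def ST_DST : Prop :=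
  ∀ (V : Type) [Fintype V] [DecidableEq V] (G : SimpleGraph V) [DecidableRel G.Adj],
    ∀ (c : V → Bool) (j : ℕ), Fx G c → imb c = 2 * (j : ℤ) →
      12 * j ≤ (good G c ∅).card ∧ 6 * j ≤ (live G c ∅).card

/-! ### Lemmas on slots -/

/-- D_CLS: classification of live slots. -/
def ST_DCLS : Prop :=
  ∀ (V : Type) [Fintype V] [DecidableEq V] (G : SimpleGraph V) [DecidableRel G.Adj],
    ∀ (c : V → Bool) (H : Finset V), Fx G c → ∀ f x, LS G c H f x →
      NS G c H f x ∨ (∃ t r, MS G c H f x t r) ∨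
      ∃ g y v v' w w', Sqr G c f g x y v v' w w' ∧ Live G c H g ∧ LS G c H g x

/-- D_GL: the general loss lemma: a good slot which is not good any more. -/
def ST_DGL : Prop :=
  ∀ (V : Type) [Fintype V] [DecidableEq V] (G : SimpleGraph V) [DecidableRel G.Adj],
    ∀ (c : V → Bool) (H H' : Finset V), Fx G c → H ⊆ H' → ∀ f x, GS G c H f x → ¬ GS G c H' f x →
      ¬ Clr G H' f ∨ ¬ Clr G H' x ∨
      (∃ t r, G.Adj x t ∧ t ≠ f ∧ Avl G c H t ∧ ¬ Clr G H' t ∧ Rm G c t r ∧ r ∉ H') ∨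
      (∃ m, Rm G c f m ∧ Avl G c H m ∧ ¬ Clr G H' m ∧ Clr G H' f ∧ Clr G H' x) ∨
      (∃ m, Rm G c f m ∧ Live G c H m ∧ ¬ Clr G H' m ∧ Clr G H' f ∧ Clr G H' x) ∨
      (∃ g m, G.Adj x g ∧ g ≠ f ∧ Live G c H g ∧ Live G c H' g ∧ Rm G c g m ∧ Live G c H m ∧
        ¬ Clr G H' m)

/-- D_W: at most two live slots at the other neighbours of a bare or `B` neighbour `w` of `a`. -/
def ST_DW : Prop :=
  ∀ (V : Type) [Fintype V] [DecidableEq V] (G : SimpleGraph V) [DecidableRel G.Adj],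
    ∀ (c : V → Bool) (H : Finset V), Fx G c → ∀ u v a w, LS G c H u a → Rm G c u v →
      G.Adj a w → w ≠ u → Bare G c H u w →
      ∃ L : Finset (V × V), L.card ≤ 2 ∧ ∀ f x, LS G c H f x → G.Adj x w → x ≠ a → f ≠ u → f ≠ v →
        (f, x) ∈ L

/-! ### Steps -/

/-- D_C1: single `N`. -/
def ST_DC1 : Prop :=
  ∀ (V : Type) [Fintype V] [DecidableEq V] (G : SimpleGraph V) [DecidableRel G.Adj],
    ∀ (c : V → Bool) (H : Finset V), Fx G c → PN G c H →
      ∃ H', OpN G c H H' ∧ Loss G c H H' 12 2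

/-- D_C2 -/
def ST_DC2 : Prop :=
  ∀ (V : Type) [Fintype V] [DecidableEq V] (G : SimpleGraph V) [DecidableRel G.Adj],
    ∀ (c : V → Bool) (H : Finset V), Fx G c → Inv G c H → ¬ PN G c H → P2 G c H →
      ∃ H1 H', OpU G c H H1 ∧ OpN G c H1 H' ∧ Loss G c H H' 12 5

/-- D_C3 -/
def ST_DC3 : Prop :=
  ∀ (V : Type) [Fintype V] [DecidableEq V] (G : SimpleGraph V) [DecidableRel G.Adj],
    ∀ (c : V → Bool) (H : Finset V), Fx G c → Inv G c H → ¬ PN G c H → ¬ P2 G c H → P3 G c H →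
      ∃ H1 H', OpU G c H H1 ∧ OpN G c H1 H' ∧ Loss G c H H' 12 5

/-- D_C4 -/
def ST_DC4 : Prop :=
  ∀ (V : Type) [Fintype V] [DecidableEq V] (G : SimpleGraph V) [DecidableRel G.Adj],
    ∀ (c : V → Bool) (H : Finset V), Fx G c → Inv G c H → ¬ PN G c H → ¬ P2 G c H → ¬ P3 G c H →
      P4 G c H → ∃ H1 H', OpU G c H H1 ∧ OpN G c H1 H' ∧ Loss G c H H' 12 5

/-- D_C5 -/
def ST_DC5 : Prop :=
  ∀ (V : Type) [Fintype V] [DecidableEq V] (G : SimpleGraph V) [DecidableRel G.Adj],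
    ∀ (c : V → Bool) (H : Finset V), Fx G c → Inv G c H → ¬ PN G c H → ¬ P2 G c H → ¬ P3 G c H →
      ¬ P4 G c H → 12 ≤ (good G c H).card →
      ∃ H1 H', OpM G c H H1 ∧ OpV G c H1 H' ∧ Loss G c H H' 12 5

/-- D_PH: phase 2. -/
def ST_DPH : Prop :=
  ∀ (V : Type) [Fintype V] [DecidableEq V] (G : SimpleGraph V) [DecidableRel G.Adj],
    ∀ (c : V → Bool) (H : Finset V), Fx G c → ∀ s, Live G c H s →
      ∃ H', OpU G c H H' ∧ (live G c H \ live G c H').card ≤ 3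

/-- D_INV: the invariant is kept. -/
def ST_DINV : Prop :=
  ∀ (V : Type) [Fintype V] [DecidableEq V] (G : SimpleGraph V) [DecidableRel G.Adj],
    ∀ (c : V → Bool), Fx G c → ∀ i k H, Run G c i k H → Inv G c H

/-- D_COMB: the combinatorial conclusion. -/
def ST_DCOMB : Prop :=
  ∀ (V : Type) [Fintype V] [DecidableEq V] (G : SimpleGraph V) [DecidableRel G.Adj],
    ∀ (c : V → Bool) (j : ℕ), Fx G c → imb c = 2 * (j : ℤ) → ∃ H, Run G c j 0 H

/-- D_SEQ: runs give final colourings (arbitrary cubic graph). -/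
def ST_DSEQ : Prop :=
  ∀ (V : Type) [Fintype V] [DecidableEq V] (G : SimpleGraph V) [DecidableRel G.Adj],
    G.IsRegularOfDegree 3 → ∀ (c : V → Bool) (j : ℕ), (∀ v, mu G c v ≤ 1) →
      imb c = 2 * (j : ℤ) → ∀ H, Run G c j 0 H → Good G

/-- D_J: the case `2 ≤ j` for triangle-free graphs. -/
def ST_DJ : Prop :=
  ∀ (V : Type) [Fintype V] [DecidableEq V] (G : SimpleGraph V) [DecidableRel G.Adj],
    G.IsRegularOfDegree 3 → TF G → ∀ (c : V → Bool) (j : ℕ), 2 ≤ j → Opt G c j → Good G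

end Pool.Agent.Helper33.MC
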