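import Mathlib
import Pool.Agent.Helper33.MC.St
import Pool.Agent.Helper91.MC.SVX

/-!
MP_4042d8_co, section D: basic facts on live slots, rows D_CLS, D_GL, D_W.
-/

set_option autoImplicit false
set_option linter.unusedSectionVars false
set_option linter.unusedVariables false

namespace Pool.Agent.Helper33.MC

open Pool.Agent.Helper27.MC Pool.Agent.Helper51.MC Pool.Agent.Helper88.MC Pool.Agent.Helper64.MC
open Pool.Agent.Helper91.MC

variable {V : Type} [Fintype V] [DecidableEq V] {G : SimpleGraph V} [DecidableRel G.Adj]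
  {c : V → Bool} {H H' : Finset V}

/-! ### squares -/

theorem n3_swap {v x y z : V} (h : N3 G v x y z) : N3 G v y x z :=
  ⟨fun w => (h.nb w).trans (by tauto), h.xy.symm, h.yz, h.xz⟩

theorem av_swap {a x y z : V} (h : Av G c a x y z) : Av G c a y x z :=
  ⟨h.ca, h.cy, h.cx, h.cz, n3_swap h.n3⟩

theorem av_swap' {a x y z : V} (h : Av G c a x y z) : Av G c a x z y :=
  ⟨h.ca, h.cx, h.cz, h.cy, ⟨fun w => (h.n3.nb w).trans (by tauto), h.n3.xz, h.n3.xy, h.n3.yz.symm⟩⟩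

theorem Sqr.swapS {s1 s2 a b v1 v2 w1 w2 : V} (h : Sqr G c s1 s2 a b v1 v2 w1 w2) :
    Sqr G c s2 s1 a b v2 v1 w1 w2 :=
  ⟨h.h2, h.h1, av_swap h.ha, av_swap h.hb, h.ta, h.tb, h.tw1, h.tw2, h.hw⟩

theorem Sqr.swapA {s1 s2 a b v1 v2 w1 w2 : V} (h : Sqr G c s1 s2 a b v1 v2 w1 w2) :
    Sqr G c s1 s2 b a v1 v2 w2 w1 :=
  ⟨sv_swap h.h1, sv_swap h.h2, h.hb, h.ha, h.tb, h.ta, h.tw2, h.tw1, h.hw.symm⟩

theorem Sqr.ne {s1 s2 a b v1 v2 w1 w2 : V} (h : Sqr G c s1 s2 a b v1 v2 w1 w2) : s1 ≠ s2 :=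
  h.ha.n3.xy

section facts

variable (F : Fx G c)
include F

theorem Sqr.fr1 {s1 s2 a b v1 v2 w1 w2 : V} (h : Sqr G c s1 s2 a b v1 v2 w1 w2) : s1 ∈ Fr G c :=
  (sv_Fr F.mu1 h.h1).2 ⟨h.ta, h.tb⟩

theorem Sqr.fr2 {s1 s2 a b v1 v2 w1 w2 : V} (h : Sqr G c s1 s2 a b v1 v2 w1 w2) : s2 ∈ Fr G c :=
  (sv_Fr F.mu1 h.h2).2 ⟨h.ta, h.tb⟩

/-! ### vertices -/

theorem fr_sv {f x : V} (hf : f ∈ Fr G c) (h : G.Adj f x) (hx : tA G c x) :
    ∃ v y, Sv G c f v x y ∧ tA G c y := by
  obtain ⟨v, y, hs⟩ := sv_ex F.reg (mem_Fr.1 hf).1 h hx.1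
  exact ⟨v, y, hs, ((sv_Fr F.mu1 hs).1 hf).2⟩

theorem t1_sv {t x : V} (hf : t ∈ T1 G c) (h : G.Adj t x) (hx : tA G c x) :
    ∃ r q, Sv G c t r x q ∧ tQ G c q := by
  obtain ⟨r, q, hs⟩ := sv_ex F.reg (mem_T1.1 hf).1 h hx.1
  rcases (sv_T1 F.mu1 hs).1 hf with h1 | h1
  · exact ⟨r, q, hs, h1.2⟩
  · exact (tA_not_tQ hx h1.1).elim

/-- a neighbour of type `S` of an `A`-vertex is free or in `T1` -/
theorem s_of_A {s x : V} (hs : tS G c s) (h : G.Adj x s) (hx : tA G c x) :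
    s ∈ Fr G c ∨ s ∈ T1 G c := by
  obtain ⟨m, b, hs'⟩ := sv_ex F.reg hs h.symm hx.1
  rcases tA_or_tQ F.mu1 hs'.cb with h1 | h1
  · exact Or.inl ((sv_Fr F.mu1 hs').2 ⟨hx, h1⟩)
  · exact Or.inr ((sv_T1 F.mu1 hs').2 (Or.inl ⟨hx, h1⟩))

theorem fr_not_T1 {s : V} (h : s ∈ Fr G c) : s ∉ T1 G c := by
  intro h'
  have h1 := (mem_Fr.1 h).2
  have h2 := (mem_T1.1 h').2
  omega

theorem fr_tS {s : V} (h : s ∈ Fr G c) : tS G c s := (mem_Fr.1 h).1

theorem t1_tS {s : V} (h : s ∈ T1 G c) : tS G c s := (mem_T1.1 h).1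

theorem tS_ne_tA {s x : V} (hs : tS G c s) (hx : tA G c x) : s ≠ x := by
  rintro rfl
  have h1 := hs.1
  rw [hx.1] at h1
  cases h1

/-- the mate -/
theorem sv_mate {s m a b y : V} (h : Sv G c s m a b) (hy : Rm G c s y) : y = m :=
  rm_uniq (F.mu1 s) hy (sv_rm h)

theorem bare_B {w u : V} (h : tB G c w) : Bare G c H u w := fun y hy => (nomate h.2 y hy).elim

/-- an `A`-vertex has at most two `S`-neighbours: the third one is of type `B` -/
theorem third_B {a s1 s2 w : V} (h : Av G c a s1 s2 w) (h1 : tS G c s1) (h2 : tS G c s2)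
    (ha : tA G c a) : tB G c w := by
  rcases tB_or_tS F.mu1 h.cz with h3 | h3
  · exact h3
  · rcases F.f2 a s1 s2 w ha h1 h2 h3 ((h.n3.nb s1).2 (by tauto)) ((h.n3.nb s2).2 (by tauto))
      ((h.n3.nb w).2 (by tauto)) with h4 | h4 | h4
    · exact (h.n3.xy h4).elim
    · exact (h.n3.xz h4).elim
    · exact (h.n3.yz h4).elim

/-- the square at an `A`-vertex with two free neighbours, with prescribed data of the first one -/
theorem sqr_of {s1 s2 a b v1 : V} (h1 : Sv G c s1 v1 a b) (hs1 : s1 ∈ Fr G c) (hs2 : s2 ∈ Fr G c)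
    (hne : s1 ≠ s2) (h : G.Adj a s2) (ha : tA G c a) :
    ∃ v2 w1 w2, Sqr G c s1 s2 a b v1 v2 w1 w2 := by
  obtain ⟨b', v1', v2, w1, w2, hq⟩ := F.f3 a s1 s2 ha hs1 hs2 hne
    (((h1.n3.nb a).2 (by tauto)).symm) h
  have e1 : v1' = v1 := sv_mate F h1 (sv_rm hq.h1)
  have e2 : b' = b := by
    rcases (h1.n3.nb b').1 ((hq.h1.n3.nb b').2 (by tauto)) with h3 | h3 | h3
    · have h4 := hq.tb.1
      rw [h3, h1.cm] at h4
      cases h4
    · exact (hq.h1.n3.yz h3.symm).elim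
    · exact h3
  subst e1 e2
  exact ⟨v2, w1, w2, hq⟩

/-- a corner has only the two free neighbours of the square -/
theorem Sqr.only {s1 s2 a b v1 v2 w1 w2 f : V} (h : Sqr G c s1 s2 a b v1 v2 w1 w2)
    (hf : tS G c f) (ha : G.Adj a f) : f = s1 ∨ f = s2 := by
  rcases (h.ha.n3.nb f).1 ha with h1 | h1 | h1
  · exact Or.inl h1
  · exact Or.inr h1
  · subst h1
    have h2 := hf.2
    have h3 := h.tw1.2
    omega

/-! ### live slots -/

theorem LS.live {f x : V} (h : LS G c H f x) : Live G c H f := ⟨h.1, h.2.2.2.1⟩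

theorem live_ls {f x : V} (h : Live G c H f) (hx : tA G c x) (ha : G.Adj f x)
    (hc : Clr G H x) : LS G c H f x := ⟨h.1, hx, ha, h.2, hc⟩

/-- a live slot in a square: the partner is live, or its mate is in `H` -/
theorem sqr_live {s1 s2 a b v1 v2 w1 w2 : V} (h : Sqr G c s1 s2 a b v1 v2 w1 w2)
    (hl : LS G c H s1 a) (hv : v2 ∉ H) : Live G c H s2 := by
  obtain ⟨h1, h2, h3, h4, h5⟩ := hl
  refine ⟨h.fr2 F, h5.2 s2 ((h.ha.n3.nb s2).2 (by tauto)), fun w hw => ?_⟩
  rcases (h.h2.n3.nb w).1 hw with h6 | h6 | h6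
  · exact h6 ▸ hv
  · exact h6 ▸ h5.1
  · exact h6 ▸ h4.2 b ((h.h1.n3.nb b).2 (by tauto))

omit F in
/-- the other slot at the corner -/
theorem sqr_ls {s1 s2 a b v1 v2 w1 w2 : V} (h : Sqr G c s1 s2 a b v1 v2 w1 w2)
    (hl : LS G c H s1 a) (hv : Live G c H s2) : LS G c H s2 a :=
  ⟨hv.1, h.ta, (h.h2.n3.nb a).2 (by tauto), hv.2, hl.2.2.2.2⟩

/-- classification of live slots, explicit form -/
theorem cls {f x y z v b : V} (hl : LS G c H f x) (hs : Sv G c f v x b) (ha : Av G c x f y z) :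
    (Bare G c H f y ∧ Bare G c H f z) ∨
    (∃ t r w, t ∈ T1 G c ∧ Rm G c t r ∧ r ∉ H ∧ tB G c w ∧ Av G c x f w t) ∨
    ∃ g v' w w', Sqr G c f g x b v v' w w' ∧ Live G c H g ∧ v' ∉ H := by
  obtain ⟨h1, h2, h3, h4, h5⟩ := hl
  have key : ∀ y z, Av G c x f y z → tS G c y → tB G c z →
      Bare G c H f y ∨ (∃ t r w, t ∈ T1 G c ∧ Rm G c t r ∧ r ∉ H ∧ tB G c w ∧ Av G c x f w t) ∨
      ∃ g v' w w', Sqr G c f g x b v v' w w' ∧ Live G c H g ∧ v' ∉ H := by
    intro y z ha hy hz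
    have hxy : G.Adj x y := (ha.n3.nb y).2 (by tauto)
    obtain ⟨m, b', hy'⟩ := sv_ex F.reg hy hxy.symm h2.1
    by_cases hm : m ∈ H
    · refine Or.inl fun w hw => Or.inr ?_
      rw [sv_mate F hy' hw]
      exact hm
    · right
      rcases s_of_A F hy hxy h2 with h6 | h6
      · right
        obtain ⟨v2, w1, w2, hq⟩ := sqr_of F hs h1 h6 ha.n3.xy hxy h2
        have e : v2 = m := sv_mate F hy' (sv_rm hq.h2)
        subst e
        exact ⟨y, v2, w1, w2, hq, sqr_live F hq ⟨h1, h2, h3, h4, h5⟩ hm, hm⟩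
      · left
        exact ⟨y, m, z, h6, sv_rm hy', hm, hz, av_swap' ha⟩
  rcases tB_or_tS F.mu1 ha.cy with hy | hy
  · rcases tB_or_tS F.mu1 ha.cz with hz | hz
    · exact Or.inl ⟨bare_B F hy, bare_B F hz⟩
    · rcases key z y (av_swap' ha) hz hy with h6 | h6 | h6
      · exact Or.inl ⟨bare_B F hy, h6⟩
      · exact Or.inr (Or.inl h6)
      · exact Or.inr (Or.inr h6)
  · have hz : tB G c z := by
      rcases tB_or_tS F.mu1 ha.cz with h6 | h6
      · exact h6
      · rcases F.f2 x f y z h2 (fr_tS F h1) hy h6 h3.symm ((ha.n3.nb y).2 (by tauto))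
          ((ha.n3.nb z).2 (by tauto)) with h7 | h7 | h7
        · exact (ha.n3.xy h7).elim
        · exact (ha.n3.xz h7).elim
        · exact (ha.n3.yz h7).elim
    rcases key y z ha hy hz with h6 | h6 | h6
    · exact Or.inl ⟨h6, bare_B F hz⟩
    · exact Or.inr (Or.inl h6)
    · exact Or.inr (Or.inr h6)

theorem bare_NS {f x y z : V} (hl : LS G c H f x) (ha : Av G c x f y z) (hy : Bare G c H f y)
    (hz : Bare G c H f z) : NS G c H f x := by
  refine ⟨hl, fun w hw hne => ?_⟩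
  rcases (ha.n3.nb w).1 hw with h | h | h
  · exact (hne h).elim
  · exact h ▸ hy
  · exact h ▸ hz

omit F in
theorem NS.good {f x : V} (h : NS G c H f x) : GS G c H f x := ⟨h.1, Or.inl h.2⟩

end facts

/-- row D_CLS -/
theorem st_DCLS : ST_DCLS := by
  intro V _ _ G _ c H F f x hl
  obtain ⟨v, b, hs, hb⟩ := fr_sv F hl.1 hl.2.2.1 hl.2.1
  obtain ⟨y, z, ha⟩ := av_ex F.reg hl.2.1 hl.2.2.1.symm
  rcases cls F hl hs ha with ⟨h1, h2⟩ | ⟨t, r, w, h1, h2, h3, h4, h5⟩ | ⟨g, v', w, w', h1, h2, h3⟩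
  · exact Or.inl (bare_NS F hl ha h1 h2)
  · exact Or.inr (Or.inl ⟨t, r, hl, (h5.n3.nb t).2 (by tauto), h5.n3.xz.symm, h1, h2, h3⟩)
  · exact Or.inr (Or.inr ⟨g, b, v, v', w, w', h1, h2, sqr_ls h1 hl h2⟩)

/-- row D_GL -/
theorem st_DGL : ST_DGL := by
  intro V _ _ G _ c H H' F hHH f x hg hn
  by_cases cf : Clr G H' f
  · by_cases cx : Clr G H' x
    · right; right
      obtain ⟨hl, hg⟩ := hg
      have hl' : LS G c H' f x := ⟨hl.1, hl.2.1, hl.2.2.1, cf, cx⟩
      have bm : ∀ w, Bare G c H f w → Bare G c H' f w :=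
        fun w h y hy => (h y hy).imp id fun h' => hHH h'
      rcases hg with h1 | ⟨t, h1, h2, h3⟩ | ⟨g, h1, h2, h3, h4⟩
      · exact (hn ⟨hl', Or.inl fun w hw hne => bm w (h1 w hw hne)⟩).elim
      · left
        obtain ⟨r, q, hs, hq⟩ := t1_sv F h3.1 h1.symm hl.2.1
        obtain ⟨y, z, ha⟩ := av_ex F.reg hl.2.1 hl.2.2.1.symm
        refine ⟨t, r, h1, h2, h3, fun h4 => hn ⟨hl', Or.inr (Or.inl ⟨t, h1, h2, h3.1, h4⟩)⟩,
          sv_rm hs, fun h4 => hn ?_⟩
        have ht : Bare G c H' f t := by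
          intro w hw
          rw [sv_mate F hs hw]
          exact Or.inr h4
        refine ⟨hl', Or.inl fun w hw hne => ?_⟩
        by_cases hwt : w = t
        · exact hwt ▸ ht
        · have hcw : c w = false := false_of_A hl.2.1.1 hl.2.1.2 hw
          rcases tB_or_tS F.mu1 hcw with h5 | h5
          · exact bare_B F h5
          · rcases F.f2 x f t w hl.2.1 (fr_tS F hl.1) (t1_tS F h3.1) h5 hl.2.2.1.symm h1 hw with
              h6 | h6 | h6
            · exact (h2 h6.symm).elim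
            · exact (hne h6.symm).elim
            · exact (hwt h6.symm).elim
      · obtain ⟨v, b, hs, hb⟩ := fr_sv F hl.1 hl.2.2.1 hl.2.1
        obtain ⟨v2, w1, w2, hq⟩ := sqr_of F hs hl.1 h3.1 h2.symm h1 hl.2.1
        by_cases hc : Clr G H' g
        · have hlg : Live G c H' g := ⟨h3.1, hc⟩
          rcases h4 with ⟨m, hm, hm'⟩ | ⟨m, hm, hm'⟩
          · have hm2 : ¬ Clr G H' m := by
              intro h5
              refine hn ⟨hl', Or.inr (Or.inr ⟨g, h1, h2, hlg, Or.inl ⟨m, hm, ?_⟩⟩)⟩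
              exact hm'.imp (fun h6 => ⟨h6.1, h5⟩) (fun h6 => ⟨h6.1, h5⟩)
            rcases hm' with hm' | hm'
            · exact Or.inr (Or.inr (Or.inl ⟨m, hm, hm', hm2, cf, cx⟩))
            · exact Or.inr (Or.inl ⟨m, hm, hm', hm2, cf, cx⟩)
          · refine Or.inr (Or.inr (Or.inr ⟨g, m, h1, h2, h3, hlg, hm, hm', fun h5 => ?_⟩))
            exact hn ⟨hl', Or.inr (Or.inr ⟨g, h1, h2, hlg, Or.inr ⟨m, hm, hm'.1, h5⟩⟩)⟩
        · exfalso
          have hv2 : v2 ∈ H' := by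
            by_contra hv
            exact hc (sqr_live F hq hl' hv).2
          refine hn ⟨hl', Or.inl fun w hw hne => ?_⟩
          rcases (hq.ha.n3.nb w).1 hw with h5 | h5 | h5
          · exact (hne h5).elim
          · subst h5
            intro y hy
            rw [sv_mate F hq.h2 hy]
            exact Or.inr hv2
          · rw [h5]
            exact bare_B F hq.tw1
    · exact Or.inr (Or.inl cx)
  · exact Or.inl cf

/-! ### row D_W -/

section W

variable (F : Fx G c)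
include F

/-- two corners of a square have different third neighbours -/
theorem sqr_w {s1 s2 a b v1 v2 w1 w2 w : V} (h : Sqr G c s1 s2 a b v1 v2 w1 w2) (hw : tB G c w)
    (ha : G.Adj a w) (hb : G.Adj b w) : False := by
  have n1 : w ≠ s1 := by
    rintro rfl
    have h1 := hw.2
    have h2 := (fr_tS F (h.fr1 F)).2
    omega
  have n2 : w ≠ s2 := by
    rintro rfl
    have h1 := hw.2
    have h2 := (fr_tS F (h.fr2 F)).2
    omega
  rcases (h.ha.n3.nb w).1 ha with h1 | h1 | h1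
  · exact n1 h1
  · exact n2 h1
  rcases (h.hb.n3.nb w).1 hb with h2 | h2 | h2
  · exact n1 h2
  · exact n2 h2
  exact h.hw (h1.symm.trans h2)

/-- if `w` is adjacent to both true neighbours of `u`, no other free vertex is adjacent to one
of them -/
theorem no_other {u v a b w g : V} (hs : Sv G c u v a b) (hu : u ∈ Fr G c) (hw : tB G c w)
    (haw : G.Adj a w) (hbw : G.Adj b w) (hg : g ∈ Fr G c) (hgu : g ≠ u) : ¬ G.Adj a g := by
  intro h
  have ha := ((sv_Fr F.mu1 hs).1 hu).1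
  obtain ⟨v2, w1, w2, hq⟩ := sqr_of F hs hu hg hgu.symm h ha
  exact sqr_w F hq hw haw hbw

theorem dw_key {u v a b w x1 x2 f f' m m' y w' : V} (hl : LS G c H u a) (hs : Sv G c u v a b)
    (hw : tB G c w) (haw : G.Adj a w) (hn : N3 G w x1 a x2)
    (hq : Sqr G c f f' x1 y m m' w w') (hf : LS G c H f x1) (hf' : LS G c H f' x1) :
    ∃ L : Finset (V × V), L.card ≤ 2 ∧ ∀ g x, LS G c H g x → G.Adj x w → x ≠ a → g ≠ u → g ≠ v →
        (g, x) ∈ L := by
  classical
  have ta := hl.2.1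
  have hua : G.Adj u a := hl.2.2.1
  have hx1w : G.Adj x1 w := ((hn.nb x1).2 (by tauto)).symm
  have at1 : ∀ g, LS G c H g x1 → g = f ∨ g = f' := fun g hg =>
    hq.only F (fr_tS F hg.1) hg.2.2.1.symm
  by_cases t2 : tA G c x2
  · have hx2w : G.Adj x2 w := ((hn.nb x2).2 (by tauto)).symm
    have nax2 : x2 ≠ a := hn.yz.symm
    -- an auxiliary fact
    have aux : ∀ g, g ∈ Fr G c → g ≠ u → G.Adj g x2 → ¬ G.Adj g a := by
      intro g hg hgu h1 h2
      obtain ⟨v2, w1, w2, hq2⟩ := sqr_of F hs hl.1 hg hgu.symm h2.symm ta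
      have h3 : x2 = b := by
        rcases (hq2.h2.n3.nb x2).1 h1 with h4 | h4 | h4
        · have h5 := t2.1
          rw [h4, hq2.h2.cm] at h5
          cases h5
        · exact (nax2 h4).elim
        · exact h4
      subst h3
      exact sqr_w F hq2 hw haw hx2w
    have key : ∀ f f' m m' : V, Sqr G c f f' x1 y m m' w w' → u = m →
        (∀ g, LS G c H g x1 → g = f ∨ g = f') →
        ∃ L : Finset (V × V), L.card ≤ 2 ∧ ∀ g x, LS G c H g x → G.Adj x w → x ≠ a → g ≠ u →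
          g ≠ v → (g, x) ∈ L := by
      intro f f' m m' hq hum at1
      have e : f = v := sv_mate F hs (by rw [hum]; exact (sv_rm hq.h1).symm)
      refine ⟨{(f', x1), (m', x2)}, Finset.card_le_two, fun g x hg hxw hxa hgu hgv => ?_⟩
      rcases (hn.nb x).1 hxw.symm with h | h | h
      · subst h
        rcases at1 g hg with h1 | h1
        · exact (hgv (h1.trans e)).elim
        · subst h1
          simp
      · exact (hxa h).elim
      · subst h
        by_cases hgm : g = m'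
        · subst hgm
          simp
        · exact (aux g hg.1 hgu hg.2.2.1 (F.r3 f f' x1 y m m' w w' x a g hq
            ⟨fun z => (hn.nb z).trans (by tauto), hn.xz, hn.xy, hn.yz.symm⟩ t2 ta hg.1
            (hum ▸ hgu) hgm hg.2.2.1)).elim
    by_cases h1 : u = m
    · exact key f f' m m' hq h1 at1
    · by_cases h2 : u = m'
      · exact key f' f m' m hq.swapS h2 fun g hg => (at1 g hg).symm
      · have h3 : G.Adj u x2 := F.r3 f f' x1 y m m' w w' a x2 u hq hn ta t2 hl.1 h1 h2 hua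
        have h4 : x2 = b := by
          rcases (hs.n3.nb x2).1 h3 with h5 | h5 | h5
          · have h6 := t2.1
            rw [h5, hs.cm] at h6
            cases h6
          · exact (nax2 h5).elim
          · exact h5
        subst h4
        refine ⟨{(f, x1), (f', x1)}, Finset.card_le_two, fun g x hg hxw hxa hgu hgv => ?_⟩
        rcases (hn.nb x).1 hxw.symm with h | h | h
        · subst h
          rcases at1 g hg with h5 | h5 <;> subst h5 <;> simp
        · exact (hxa h).elim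
        · subst h
          exact (no_other F (sv_swap hs) hl.1 hw hx2w haw hg.1 hgu hg.2.2.1.symm).elim
  · refine ⟨{(f, x1), (f', x1)}, Finset.card_le_two, fun g x hg hxw hxa hgu hgv => ?_⟩
    rcases (hn.nb x).1 hxw.symm with h | h | h
    · subst h
      rcases at1 g hg with h5 | h5 <;> subst h5 <;> simp
    · exact (hxa h).elim
    · exact (t2 (h ▸ hg.2.1)).elim

end W

theorem one_slot (F : Fx G c) (x : V) (h : ¬ ∃ f f', f ≠ f' ∧ LS G c H f x ∧ LS G c H f' x) :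
    ∃ f0, ∀ f, LS G c H f x → f = f0 := by
  by_cases h1 : ∃ f, LS G c H f x
  · obtain ⟨f0, h0⟩ := h1
    refine ⟨f0, fun f hf => ?_⟩
    by_contra hne
    exact h ⟨f, f0, hne, hf, h0⟩
  · exact ⟨x, fun f hf => (h1 ⟨f, hf⟩).elim⟩

/-- row D_W -/
theorem st_DW : ST_DW := by
  intro V _ _ G _ c H F u v a w hl huv haw hwu hb
  classical
  obtain ⟨v', b, hs, tb⟩ := fr_sv F hl.1 hl.2.2.1 hl.2.1
  have e := sv_mate F hs huv
  subst e
  have ta := hl.2.1
  have cw : c w = false := false_of_A ta.1 ta.2 haw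
  rcases tB_or_tS F.mu1 cw with hw | hw
  · -- type B
    obtain ⟨x, y, z, hxy, hxz, hyz, nb⟩ := nb_three G F.reg w
    obtain ⟨x1, x2, hn⟩ : ∃ x1 x2, N3 G w x1 a x2 := by
      rcases (nb a).1 haw.symm with h | h | h
      · exact ⟨y, z, fun t => (nb t).trans (by rw [h]; tauto), h ▸ hxy.symm, hyz, h ▸ hxz⟩
      · exact ⟨x, z, fun t => (nb t).trans (by rw [h]), h ▸ hxy, hxz, h ▸ hyz⟩
      · exact ⟨x, y, fun t => (nb t).trans (by rw [h]; tauto), h ▸ hxz, hxy, h ▸ hyz.symm⟩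
    have main : ∀ x1 x2, N3 G w x1 a x2 → (∃ f f', f ≠ f' ∧ LS G c H f x1 ∧ LS G c H f' x1) →
        ∃ L : Finset (V × V), L.card ≤ 2 ∧ ∀ g x, LS G c H g x → G.Adj x w → x ≠ a → g ≠ u →
          g ≠ v → (g, x) ∈ L := by
      rintro x1 x2 hn ⟨f, f', hne, hf, hf'⟩
      obtain ⟨y, m, m', w1, w2, hq⟩ := F.f3 x1 f f' hf.2.1 hf.1 hf'.1 hne hf.2.2.1.symm
        hf'.2.2.1.symm
      have e1 : w1 = w := by
        rcases (hq.ha.n3.nb w).1 ((hn.nb x1).2 (by tauto)).symm with h | h | h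
        · have h1 := hw.2
          have h2 := (fr_tS F hf.1).2
          rw [← h] at h2
          omega
        · have h1 := hw.2
          have h2 := (fr_tS F hf'.1).2
          rw [← h] at h2
          omega
        · exact h.symm
      subst e1
      exact dw_key F hl hs hw haw hn hq hf hf'
    by_cases h1 : ∃ f f', f ≠ f' ∧ LS G c H f x1 ∧ LS G c H f' x1
    · exact main x1 x2 hn h1
    · by_cases h2 : ∃ f f', f ≠ f' ∧ LS G c H f x2 ∧ LS G c H f' x2
      · exact main x2 x1 ⟨fun t => (hn.nb t).trans (by tauto), hn.yz.symm, hn.xz.symm,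
          hn.xy.symm⟩ h2
      · obtain ⟨f1, hf1⟩ := one_slot F x1 h1
        obtain ⟨f2, hf2⟩ := one_slot F x2 h2
        refine ⟨{(f1, x1), (f2, x2)}, Finset.card_le_two, fun g x hg hxw hxa hgu hgv => ?_⟩
        rcases (hn.nb x).1 hxw.symm with h | h | h
        · subst h
          rw [hf1 g hg]
          simp
        · exact (hxa h).elim
        · subst h
          rw [hf2 g hg]
          simp
  · -- type S, open
    obtain ⟨m, x1, hsw⟩ := sv_ex F.reg hw haw.symm ta.1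
    have hm : m ∈ H := by
      rcases hb m (sv_rm hsw) with h | h
      · subst h
        exact (F.tf m a w hl.2.2.1 haw ((sv_rm hsw).1.symm)).elim
      · exact h
    have h1 : ¬ ∃ f f', f ≠ f' ∧ LS G c H f x1 ∧ LS G c H f' x1 := by
      rintro ⟨f, f', hne, hf, hf'⟩
      have nw : ∀ f, LS G c H f x1 → w ≠ f := by
        rintro f hf rfl
        exact hf.2.2.2.1.2 m (sv_rm hsw).1 hm
      have hwx : G.Adj x1 w := ((hsw.n3.nb x1).2 (by tauto)).symm
      rcases F.f2 x1 w f f' hf.2.1 hw (fr_tS F hf.1) (fr_tS F hf'.1) hwx hf.2.2.1.symm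
        hf'.2.2.1.symm with h | h | h
      · exact nw f hf h
      · exact nw f' hf' h
      · exact hne h
    obtain ⟨f1, hf1⟩ := one_slot F x1 h1
    refine ⟨{(f1, x1)}, by simp, fun g x hg hxw hxa hgu hgv => ?_⟩
    rcases (hsw.n3.nb x).1 hxw.symm with h | h | h
    · have h2 := hg.2.1.1
      rw [h, hsw.cm] at h2
      cases h2
    · exact (hxa h).elim
    · subst h
      rw [hf1 g hg]
      simp

end Pool.Agent.Helper33.MC
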