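import Mathlib
import Pool.Agent.Helper33.MC.Bas

/-!
MP_4042d8_co, section D: the good slots which are lost by the operations `N` and `U`.
-/

set_option autoImplicit false
set_option linter.unusedSectionVars false
set_option linter.unusedVariables false

namespace Pool.Agent.Helper33.MC

open Pool.Agent.Helper27.MC Pool.Agent.Helper51.MC Pool.Agent.Helper88.MC Pool.Agent.Helper64.MC
open Pool.Agent.Helper91.MC

section defs

variable {V : Type} [Fintype V] [DecidableEq V] (G : SimpleGraph V) [DecidableRel G.Adj]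

/-- SPOIL at `b`: `f` is in an intact square without live free mates, its mate `t` is an available
vertex of `T1` adjacent to `b`. -/
def SpB (c : V → Bool) (H : Finset V) (b f : V) : Prop :=
  ∃ t g z y v' w w', G.Adj b t ∧ Avl G c H t ∧ Sqr G c f g z y t v' w w' ∧ Live G c H f ∧
    Live G c H g ∧ ¬ Live G c H v'

/-- effect of `U(s)` on the square of `e`, the mate of the partner `s'` of `s`:
`e' ` the partner of `e`, `k` the mate of `e'`. -/
def EfB (c : V → Bool) (H H' : Finset V) (s f : V) : Prop :=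
  ∃ s' a b m e w1 w2 e' z y k w w', Sqr G c s s' a b m e w1 w2 ∧ Live G c H s' ∧
    Sqr G c e e' z y s' k w w' ∧ Live G c H' e ∧ Live G c H' e' ∧ ¬ Live G c H' k ∧
    (f = e ∨ (f = e' ∧ ¬ Avl G c H' k))

end defs

variable {V : Type} [Fintype V] [DecidableEq V] {G : SimpleGraph V} [DecidableRel G.Adj]
  {c : V → Bool} {H H' : Finset V}

theorem Clr.mono (hHH : H ⊆ H') {x : V} (h : Clr G H' x) : Clr G H x :=
  ⟨fun h' => h.1 (hHH h'), fun w hw h' => h.2 w hw (hHH h')⟩

theorem Live.mono (hHH : H ⊆ H') {x : V} (h : Live G c H' x) : Live G c H x := ⟨h.1, h.2.mono hHH⟩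

theorem Avl.mono (hHH : H ⊆ H') {x : V} (h : Avl G c H' x) : Avl G c H x := ⟨h.1, h.2.mono hHH⟩

theorem LS.mono (hHH : H ⊆ H') {f x : V} (h : LS G c H' f x) : LS G c H f x :=
  ⟨h.1, h.2.1, h.2.2.1, h.2.2.2.1.mono hHH, h.2.2.2.2.mono hHH⟩

theorem mem_good {p : V × V} : p ∈ good G c H ↔ GS G c H p.1 p.2 := by
  unfold good
  simp

theorem mem_live {f : V} : f ∈ live G c H ↔ Live G c H f := by
  unfold live
  simp

/-- not clear: in the set or adjacent to it -/
theorem not_clr {x : V} (h : ¬ Clr G H x) : x ∈ H ∨ ∃ w, G.Adj x w ∧ w ∈ H := by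
  unfold Clr at h
  by_contra h1
  push Not at h1
  exact h ⟨h1.1, h1.2⟩

/-- the new reason for not being clear -/
theorem not_clr' {K : Finset V} {x : V} (h0 : Clr G H x) (h : ¬ Clr G (H ∪ K) x) :
    x ∈ K ∨ ∃ w, G.Adj x w ∧ w ∈ K := by
  rcases not_clr h with h1 | ⟨w, h1, h2⟩
  · exact Or.inl ((Finset.mem_union.1 h1).resolve_left h0.1)
  · exact Or.inr ⟨w, h1, (Finset.mem_union.1 h2).resolve_left (h0.2 w h1)⟩

section facts

variable (F : Fx G c)
include F

/-- refined general loss lemma -/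
theorem gl (hHH : H ⊆ H') {f x : V} (hg : GS G c H f x) (hn : ¬ GS G c H' f x) :
    ¬ Clr G H' f ∨ ¬ Clr G H' x ∨
    (∃ t r, G.Adj x t ∧ t ≠ f ∧ Avl G c H t ∧ ¬ Clr G H' t ∧ Rm G c t r ∧ r ∉ H') ∨
    ∃ g y v v' w w', Sqr G c f g x y v v' w w' ∧ LS G c H' f x ∧ Live G c H' g ∧
      ((Live G c H v ∨ Avl G c H v) ∨ Live G c H v') ∧ ¬ Live G c H' v ∧ ¬ Avl G c H' v ∧
      ¬ Live G c H' v' := by
  by_cases cf : Clr G H' f
  swap
  · exact Or.inl cf
  by_cases cx : Clr G H' x
  swap
  · exact Or.inr (Or.inl cx)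
  right; right
  have hl : LS G c H f x := hg.1
  have hl' : LS G c H' f x := ⟨hl.1, hl.2.1, hl.2.2.1, cf, cx⟩
  rcases st_DGL V G c H H' F hHH f x hg hn with h | h | h | h
  · exact (h cf).elim
  · exact (h cx).elim
  · exact Or.inl h
  · obtain ⟨v, b, hs, hb⟩ := fr_sv F hl.1 hl.2.2.1 hl.2.1
    obtain ⟨y, z, ha⟩ := av_ex F.reg hl.2.1 hl.2.2.1.symm
    rcases cls F hl' hs ha with ⟨h1, h2⟩ | ⟨t, r, w, h1, h2, h3, h4, h5⟩ | ⟨g, v', w, w', h1, h2, h3⟩
    · exact (hn (bare_NS F hl' ha h1 h2).good).elim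
    · left
      have axt : G.Adj x t := (h5.n3.nb t).2 (by tauto)
      have htf : t ≠ f := h5.n3.xz.symm
      have hav : Avl G c H t := by
        rcases hg.2 with h6 | ⟨t', h6, h7, h8⟩ | ⟨g, h6, h7, h8, _⟩
        · rcases h6 t axt htf r h2 with h9 | h9
          · subst h9
            have e : t = v := sv_mate F hs h2.symm
            subst e
            exact (F.tf r x t hl.2.2.1 axt (sv_rm hs).1).elim
          · exact (h3 (hHH h9)).elim
        · rcases F.f2 x f t t' hl.2.1 (fr_tS F hl.1) (t1_tS F h1) (t1_tS F h8.1) hl.2.2.1.symm axt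
            h6 with h9 | h9 | h9
          · exact (htf h9.symm).elim
          · exact (h7 h9.symm).elim
          · exact h9 ▸ h8
        · rcases F.f2 x f t g hl.2.1 (fr_tS F hl.1) (t1_tS F h1) (fr_tS F h8.1) hl.2.2.1.symm axt
            h6 with h9 | h9 | h9
          · exact (htf h9.symm).elim
          · exact (h7 h9.symm).elim
          · exact (fr_not_T1 F h8.1 (h9 ▸ h1)).elim
      exact ⟨t, r, axt, htf, hav, fun h6 => hn ⟨hl', Or.inr (Or.inl ⟨t, axt, htf, h1, h6⟩)⟩, h2, h3⟩
    · right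
      have axg : G.Adj x g := (h1.ha.n3.nb g).2 (by tauto)
      have hgf : g ≠ f := h1.ne.symm
      have hno : ¬ ((∃ m, Rm G c f m ∧ (Live G c H' m ∨ Avl G c H' m)) ∨
          ∃ m, Rm G c g m ∧ Live G c H' m) :=
        fun h6 => hn ⟨hl', Or.inr (Or.inr ⟨g, axg, hgf, h2, h6⟩)⟩
      refine ⟨g, b, v, v', w, w', h1, hl', h2, ?_, fun h6 => hno (Or.inl ⟨v, sv_rm hs, Or.inl h6⟩),
        fun h6 => hno (Or.inl ⟨v, sv_rm hs, Or.inr h6⟩), fun h6 => hno (Or.inr ⟨v', sv_rm h1.h2, h6⟩)⟩
      rcases hg.2 with h6 | ⟨t', h6, h7, h8⟩ | ⟨g', h6, h7, h8, h9⟩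
      · rcases h6 g axg hgf v' (sv_rm h1.h2) with h10 | h10
        · have e : g = v := sv_mate F hs (by rw [← h10]; exact (sv_rm h1.h2).symm)
          exact (F.tf f x g hl.2.2.1 axg (by rw [e]; exact (sv_rm hs).1)).elim
        · exact (h3 (hHH h10)).elim
      · rcases h1.only F (t1_tS F h8.1) h6 with h10 | h10
        · exact (h7 h10).elim
        · exact (fr_not_T1 F h2.1 (h10 ▸ h8.1)).elim
      · have e : g' = g := (h1.only F (fr_tS F h8.1) h6).resolve_left h7
        subst e
        rcases h9 with ⟨m, h9, h10⟩ | ⟨m, h9, h10⟩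
        · rw [sv_mate F hs h9] at h10
          exact Or.inl h10
        · rw [sv_mate F h1.h2 h9] at h10
          exact Or.inr h10

/-- LN: the good slots lost by `N(u,a)`. -/
theorem loss_N {u v a b x y : V} (hu : Sv G c u v a b) (ha : Av G c a u x y) (ta : tA G c a)
    (tb : tA G c b) (cu : Clr G H u) (ca : Clr G H a) (bx : Bare G c H u x)
    (by' : Bare G c H u y) {f z : V} (hg : GS G c H f z)
    (hn : ¬ GS G c (H ∪ {u, b, x, a, y}) f z) :
    f = u ∨ f = v ∨ SpB G c H b f ∨ (G.Adj z x ∧ z ≠ a) ∨ (G.Adj z y ∧ z ≠ a) := by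
  have fu : u ∈ Fr G c := (sv_Fr F.mu1 hu).2 ⟨ta, tb⟩
  have hl := hg.1
  -- live vertices near `a`
  have bxy : ∀ w, (w = x ∨ w = y) → Bare G c H u w := by
    rintro w (h | h)
    · exact h ▸ bx
    · exact h ▸ by'
  have nK : ∀ g, Clr G H g → tS G c g → (g = x ∨ g = y) → g = v := by
    intro g hc hgS h
    obtain ⟨m, hm⟩ := exists_mate hgS.2
    rcases bxy g h m hm with h1 | h1
    · exact sv_mate F hu (by rw [← h1]; exact hm.symm)
    · exact (hc.2 m hm.1 h1).elim
  have nxy : ∀ g w, Clr G H g → tS G c g → (w = x ∨ w = y) → G.Adj g w → g = u := by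
    intro g w hc hgS h hadj
    have cw : c w = false := by
      rcases h with h | h <;> subst h
      · exact ha.cy
      · exact ha.cz
    rcases bxy w h g ⟨hadj.symm, by rw [cw]; exact hgS.1⟩ with h1 | h1
    · exact h1
    · exact (hc.1 h1).elim
  have na : ∀ g, Clr G H g → tS G c g → G.Adj a g → g = u ∨ g = v := by
    intro g hc hgS h
    rcases (ha.n3.nb g).1 h with h1 | h1 | h1
    · exact Or.inl h1
    · exact Or.inr (nK g hc hgS (Or.inl h1))
    · exact Or.inr (nK g hc hgS (Or.inr h1))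
  have nbF : ∀ g, Clr G H g → g ∈ Fr G c → G.Adj b g → g = u ∨ g = v := by
    intro g hc hgF h
    by_cases hgu : g = u
    · exact Or.inl hgu
    · obtain ⟨v2, w1, w2, hq⟩ := sqr_of F (sv_swap hu) fu hgF (fun h => hgu h.symm) h tb
      exact na g hc (fr_tS F hgF) ((hq.hb.n3.nb g).2 (by tauto))
  have nFr : ∀ g, Live G c H g → ¬ Clr G (H ∪ {u, b, x, a, y}) g → g = u ∨ g = v := by
    intro g hg hc
    have hgS := fr_tS F hg.1
    rcases not_clr' hg.2 hc with h1 | ⟨w, h1, h2⟩
    · simp only [Finset.mem_insert, Finset.mem_singleton] at h1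
      rcases h1 with h1 | h1 | h1 | h1 | h1
      · exact Or.inl h1
      · exact (tS_ne_tA F hgS tb h1).elim
      · exact Or.inr (nK g hg.2 hgS (Or.inl h1))
      · exact (tS_ne_tA F hgS ta h1).elim
      · exact Or.inr (nK g hg.2 hgS (Or.inr h1))
    · simp only [Finset.mem_insert, Finset.mem_singleton] at h2
      rcases h2 with h2 | h2 | h2 | h2 | h2
      · subst h2
        exact Or.inr (sv_mate F hu ⟨h1.symm, by rw [hu.cs]; exact hgS.1⟩)
      · subst h2
        exact nbF g hg.2 hg.1 h1.symm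
      · exact Or.inl (nxy g w hg.2 hgS (Or.inl h2) h1)
      · subst h2
        exact na g hg.2 hgS h1.symm
      · exact Or.inl (nxy g w hg.2 hgS (Or.inr h2) h1)
  have fin2 : (z = a ∨ z = b) → f = u ∨ f = v := by
    rintro (h | h)
    · subst h
      exact na f hl.2.2.2.1 (fr_tS F hl.1) hl.2.2.1.symm
    · subst h
      exact nbF f hl.2.2.2.1 hl.1 hl.2.2.1.symm
  rcases gl F Finset.subset_union_left hg hn with h | h | ⟨t, r, h1, h2, h3, h4, h5, h6⟩ |
    ⟨g, y1, v1, v', w, w', hq, h1, h2, h3, h4, h5, h6⟩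
  · rcases nFr f (LS.live F hl) h with h1 | h1
    · exact Or.inl h1
    · exact Or.inr (Or.inl h1)
  · rcases not_clr' hl.2.2.2.2 h with h1 | ⟨w, h1, h2⟩
    · simp only [Finset.mem_insert, Finset.mem_singleton] at h1
      have cz := hl.2.1.1
      rcases h1 with h1 | h1 | h1 | h1 | h1
      · rw [h1, hu.cs] at cz; cases cz
      · rcases fin2 (Or.inr h1) with h3 | h3
        · exact Or.inl h3
        · exact Or.inr (Or.inl h3)
      · rw [h1, ha.cy] at cz; cases cz
      · rcases fin2 (Or.inl h1) with h3 | h3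
        · exact Or.inl h3
        · exact Or.inr (Or.inl h3)
      · rw [h1, ha.cz] at cz; cases cz
    · simp only [Finset.mem_insert, Finset.mem_singleton] at h2
      have cz := hl.2.1.1
      have cw := false_of_A hl.2.1.1 hl.2.1.2 h1
      rcases h2 with h2 | h2 | h2 | h2 | h2
      · subst h2
        rcases (hu.n3.nb z).1 h1.symm with h3 | h3 | h3
        · rw [h3, hu.cm] at cz; cases cz
        · rcases fin2 (Or.inl h3) with h3 | h3
          · exact Or.inl h3
          · exact Or.inr (Or.inl h3)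
        · rcases fin2 (Or.inr h3) with h3 | h3
          · exact Or.inl h3
          · exact Or.inr (Or.inl h3)
      · rw [h2, tb.1] at cw; cases cw
      · by_cases hza : z = a
        · rcases fin2 (Or.inl hza) with h3 | h3
          · exact Or.inl h3
          · exact Or.inr (Or.inl h3)
        · exact Or.inr (Or.inr (Or.inr (Or.inl ⟨h2 ▸ h1, hza⟩)))
      · rw [h2, ta.1] at cw; cases cw
      · by_cases hza : z = a
        · rcases fin2 (Or.inl hza) with h3 | h3
          · exact Or.inl h3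
          · exact Or.inr (Or.inl h3)
        · exact Or.inr (Or.inr (Or.inr (Or.inr ⟨h2 ▸ h1, hza⟩)))
  · -- spoiled M slot
    have htS := t1_tS F h3.1
    have hru : r ≠ u := by
      rintro rfl
      exact h6 (by simp)
    rcases not_clr' h3.2 h4 with h7 | ⟨w, h7, h8⟩
    · simp only [Finset.mem_insert, Finset.mem_singleton] at h7
      rcases h7 with h7 | h7 | h7 | h7 | h7
      · exact (fr_not_T1 F fu (h7 ▸ h3.1)).elim
      · exact (tS_ne_tA F htS tb h7).elim
      · have := nK t h3.2 htS (Or.inl h7)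
        rw [this] at h5
        exact (hru (rm_uniq (F.mu1 v) h5 (sv_rm hu).symm)).elim
      · exact (tS_ne_tA F htS ta h7).elim
      · have := nK t h3.2 htS (Or.inr h7)
        rw [this] at h5
        exact (hru (rm_uniq (F.mu1 v) h5 (sv_rm hu).symm)).elim
    · simp only [Finset.mem_insert, Finset.mem_singleton] at h8
      rcases h8 with h8 | h8 | h8 | h8 | h8
      · subst h8
        have := sv_mate F hu ⟨h7.symm, by rw [hu.cs]; exact htS.1⟩
        rw [this] at h5
        exact (hru (rm_uniq (F.mu1 v) h5 (sv_rm hu).symm)).elim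
      · subst h8
        -- `t ~ b`, `t ~ z`
        obtain ⟨r', q, hs, hq⟩ := t1_sv F h3.1 h1.symm hl.2.1
        have hzb : z = w := by
          rcases (hs.n3.nb w).1 h7 with h9 | h9 | h9
          · have := tb.1
            rw [h9, hs.cm] at this; cases this
          · exact h9.symm
          · exact (tA_not_tQ tb (h9 ▸ hq)).elim
        rcases fin2 (Or.inr hzb) with h3 | h3
        · exact Or.inl h3
        · exact Or.inr (Or.inl h3)
      · exact (fr_not_T1 F fu ((nxy t w h3.2 htS (Or.inl h8) h7) ▸ h3.1)).elim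
      · subst h8
        rcases na t h3.2 htS h7.symm with h9 | h9
        · exact (fr_not_T1 F fu (h9 ▸ h3.1)).elim
        · rw [h9] at h5
          exact (hru (rm_uniq (F.mu1 v) h5 (sv_rm hu).symm)).elim
      · exact (fr_not_T1 F fu ((nxy t w h3.2 htS (Or.inr h8) h7) ▸ h3.1)).elim
  · -- square
    right; right; left
    have hv : ∀ m, Live G c H m → ¬ Live G c (H ∪ {u, b, x, a, y}) m →
        (m = u ∨ m = v) := fun m hm hm' => nFr m hm fun h => hm' ⟨hm.1, h⟩
    have fK : f ≠ u := by
      rintro rfl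
      exact h1.2.2.2.1.1 (by simp)
    have gK : g ≠ u := by
      rintro rfl
      exact h2.2.1 (by simp)
    have fV : ∀ g, Clr G (H ∪ {u, b, x, a, y}) g → g ≠ v := by
      rintro g hc rfl
      exact hc.2 u (sv_rm hu).symm.1 (by simp)
    have n1 : ¬ Live G c H v1 := by
      intro h7
      rcases hv v1 h7 h4 with h8 | h8
      · exact fV f h1.2.2.2.1 (sv_mate F hu (by rw [← h8]; exact (sv_rm hq.h1).symm))
      · exact fK (rm_uniq (F.mu1 v) (by rw [← h8]; exact (sv_rm hq.h1).symm) (sv_rm hu).symm)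
    have n2 : ¬ Live G c H v' := by
      intro h7
      rcases hv v' h7 h6 with h8 | h8
      · exact fV g h2.2 (sv_mate F hu (by rw [← h8]; exact (sv_rm hq.h2).symm))
      · exact gK (rm_uniq (F.mu1 v) (by rw [← h8]; exact (sv_rm hq.h2).symm) (sv_rm hu).symm)
    have hav : Avl G c H v1 := by
      rcases h3 with (h3 | h3) | h3
      · exact (n1 h3).elim
      · exact h3
      · exact (n2 h3).elim
    have hnc : ¬ Clr G (H ∪ {u, b, x, a, y}) v1 := fun h => h5 ⟨hav.1, h⟩
    have hbv : G.Adj b v1 := by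
      have htS := t1_tS F hav.1
      have hvK : v1 ∉ H ∪ {u, b, x, a, y} := h1.2.2.2.1.2 v1 (sv_rm hq.h1).1
      rcases not_clr' hav.2 hnc with h7 | ⟨w, h7, h8⟩
      · exact (hvK (Finset.mem_union_right _ h7)).elim
      · simp only [Finset.mem_insert, Finset.mem_singleton] at h8
        have bad : v1 ≠ u ∧ v1 ≠ v := by
          refine ⟨?_, ?_⟩
          · intro h9
            exact fr_not_T1 F fu (h9 ▸ hav.1)
          · intro h9
            exact fK (rm_uniq (F.mu1 v) (by rw [← h9]; exact (sv_rm hq.h1).symm) (sv_rm hu).symm)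
        rcases h8 with h8 | h8 | h8 | h8 | h8
        · subst h8
          exact (bad.2 (sv_mate F hu ⟨h7.symm, by rw [hu.cs]; exact htS.1⟩)).elim
        · exact h8 ▸ h7.symm
        · exact (bad.1 (nxy v1 w hav.2 htS (Or.inl h8) h7)).elim
        · subst h8
          rcases na v1 hav.2 htS h7.symm with h9 | h9
          · exact (bad.1 h9).elim
          · exact (bad.2 h9).elim
        · exact (bad.1 (nxy v1 w hav.2 htS (Or.inr h8) h7)).elim
    exact ⟨v1, g, z, y1, v', w, w', hbv, hav, hq, LS.live F hl, h2.mono Finset.subset_union_left, n2⟩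

end facts

end Pool.Agent.Helper33.MC
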