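import Mathlib
import Pool.Agent.Helper33.MC.Loss

/-!
MP_4042d8_co, section D: the good slots which are lost by the operation `U`, lost live vertices,
counting.
-/

set_option autoImplicit false
set_option linter.unusedSectionVars false
set_option linter.unusedVariables false

namespace Pool.Agent.Helper33.MC

open Pool.Agent.Helper27.MC Pool.Agent.Helper51.MC Pool.Agent.Helper88.MC Pool.Agent.Helper64.MC
open Pool.Agent.Helper91.MC

variable {V : Type} [Fintype V] [DecidableEq V] {G : SimpleGraph V} [DecidableRel G.Adj]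
  {c : V → Bool} {H H' : Finset V}

section defs

variable (G)

/-- the partner of `s` (with `A`-neighbours `a`, `b`) -/
def Ptn (c : V → Bool) (s a b f : V) : Prop := f ∈ Fr G c ∧ f ≠ s ∧ G.Adj a f ∧ G.Adj b f

end defs

section facts

variable (F : Fx G c)
include F

/-- a free vertex at an `A`-neighbour of the free vertex `s` -/
theorem fr_near {s m a b g : V} (hs : Sv G c s m a b) (ta : tA G c a) (tb : tA G c b)
    (hg : g ∈ Fr G c) (h : G.Adj a g ∨ G.Adj b g) : g = s ∨ Ptn G c s a b g := by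
  have fs : s ∈ Fr G c := (sv_Fr F.mu1 hs).2 ⟨ta, tb⟩
  by_cases hgs : g = s
  · exact Or.inl hgs
  · right
    rcases h with h | h
    · obtain ⟨v2, w1, w2, hq⟩ := sqr_of F hs fs hg (fun h => hgs h.symm) h ta
      exact ⟨hg, hgs, h, (hq.hb.n3.nb g).2 (by tauto)⟩
    · obtain ⟨v2, w1, w2, hq⟩ := sqr_of F (sv_swap hs) fs hg (fun h => hgs h.symm) h tb
      exact ⟨hg, hgs, (hq.hb.n3.nb g).2 (by tauto), h⟩

/-- the square of the partner -/
theorem Ptn.sqr {s m a b g : V} (h : Ptn G c s a b g) (hs : Sv G c s m a b) (ta : tA G c a)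
    (tb : tA G c b) : ∃ e w1 w2, Sqr G c s g a b m e w1 w2 :=
  sqr_of F hs ((sv_Fr F.mu1 hs).2 ⟨ta, tb⟩) h.1 (fun h' => h.2.1 h'.symm) h.2.2.1 ta

theorem Sqr.ptn {s g a b m e w1 w2 : V} (h : Sqr G c s g a b m e w1 w2) : Ptn G c s a b g :=
  ⟨h.fr2 F, h.ne.symm, (h.ha.n3.nb g).2 (by tauto), (h.hb.n3.nb g).2 (by tauto)⟩

/-- the partner is unique -/
theorem Ptn.uniq {s a b g g' : V} (h : Ptn G c s a b g) (h' : Ptn G c s a b g')
    (fs : s ∈ Fr G c) (ha : G.Adj a s) (ta : tA G c a) : g = g' := by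
  rcases F.f2 a s g g' ta (fr_tS F fs) (fr_tS F h.1) (fr_tS F h'.1) ha h.2.2.1 h'.2.2.1 with
    h1 | h1 | h1
  · exact (h.2.1 h1.symm).elim
  · exact (h'.2.1 h1.symm).elim
  · exact h1

/-- live vertices lost by `U(s)` -/
theorem live_U {s m a b g : V} (hs : Sv G c s m a b) (ta : tA G c a) (tb : tA G c b)
    (hg : Live G c H g) (hc : ¬ Clr G (H ∪ {s, a, b}) g) : g = s ∨ g = m ∨ Ptn G c s a b g := by
  have hgS := fr_tS F hg.1
  have near : (G.Adj a g ∨ G.Adj b g) → g = s ∨ g = m ∨ Ptn G c s a b g := by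
    intro h
    rcases fr_near F hs ta tb hg.1 h with h1 | h1
    · exact Or.inl h1
    · exact Or.inr (Or.inr h1)
  rcases not_clr' hg.2 hc with h1 | ⟨w, h1, h2⟩
  · simp only [Finset.mem_insert, Finset.mem_singleton] at h1
    rcases h1 with h1 | h1 | h1
    · exact Or.inl h1
    · exact (tS_ne_tA F hgS ta h1).elim
    · exact (tS_ne_tA F hgS tb h1).elim
  · simp only [Finset.mem_insert, Finset.mem_singleton] at h2
    rcases h2 with h2 | h2 | h2
    · subst h2
      exact Or.inr (Or.inl (sv_mate F hs ⟨h1.symm, by rw [hs.cs]; exact hgS.1⟩))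
    · exact near (Or.inl (h2 ▸ h1.symm))
    · exact near (Or.inr (h2 ▸ h1.symm))

/-- LU: the good slots lost by `U(s)`. -/
theorem loss_U {s m a b : V} (hs : Sv G c s m a b) (ta : tA G c a) (tb : tA G c b)
    (cs : Clr G H s) {f z : V} (hg : GS G c H f z) (hn : ¬ GS G c (H ∪ {s, a, b}) f z) :
    f = s ∨ f = m ∨ Ptn G c s a b f ∨ SpB G c H a f ∨ SpB G c H b f ∨
      EfB G c H (H ∪ {s, a, b}) s f := by
  have fs : s ∈ Fr G c := (sv_Fr F.mu1 hs).2 ⟨ta, tb⟩
  have hl := hg.1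
  have near : ∀ g, g ∈ Fr G c → (G.Adj a g ∨ G.Adj b g) → g = s ∨ g = m ∨ Ptn G c s a b g := by
    intro g hg h
    rcases fr_near F hs ta tb hg h with h1 | h1
    · exact Or.inl h1
    · exact Or.inr (Or.inr h1)
  have toG : (f = s ∨ f = m ∨ Ptn G c s a b f) → f = s ∨ f = m ∨ Ptn G c s a b f ∨
      SpB G c H a f ∨ SpB G c H b f ∨ EfB G c H (H ∪ {s, a, b}) s f := by tauto
  have fin2 : (z = a ∨ z = b) → f = s ∨ f = m ∨ Ptn G c s a b f := by
    rintro (h | h)
    · exact near f hl.1 (Or.inl (h ▸ hl.2.2.1.symm))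
    · exact near f hl.1 (Or.inr (h ▸ hl.2.2.1.symm))
  rcases gl F Finset.subset_union_left hg hn with h | h | ⟨t, r, h1, h2, h3, h4, h5, h6⟩ |
    ⟨g, y1, v1, v', w, w', hq, h1, h2, h3, h4, h5, h6⟩
  · exact toG (live_U F hs ta tb (LS.live F hl) h)
  · rcases not_clr' hl.2.2.2.2 h with h1 | ⟨w, h1, h2⟩
    · simp only [Finset.mem_insert, Finset.mem_singleton] at h1
      have cz := hl.2.1.1
      rcases h1 with h1 | h1 | h1
      · rw [h1, hs.cs] at cz; cases cz
      · exact toG (fin2 (Or.inl h1))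
      · exact toG (fin2 (Or.inr h1))
    · simp only [Finset.mem_insert, Finset.mem_singleton] at h2
      have cz := hl.2.1.1
      have cw := false_of_A hl.2.1.1 hl.2.1.2 h1
      rcases h2 with h2 | h2 | h2
      · subst h2
        rcases (hs.n3.nb z).1 h1.symm with h3 | h3 | h3
        · rw [h3, hs.cm] at cz; cases cz
        · exact toG (fin2 (Or.inl h3))
        · exact toG (fin2 (Or.inr h3))
      · rw [h2, ta.1] at cw; cases cw
      · rw [h2, tb.1] at cw; cases cw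
  · -- spoiled M slot
    have htS := t1_tS F h3.1
    have hrs : r ≠ s := by
      rintro rfl
      exact h6 (by simp)
    have oneA : ∀ x, G.Adj t x → tA G c x → z = x := by
      intro x hx hxA
      obtain ⟨r', q, hs', hq⟩ := t1_sv F h3.1 h1.symm hl.2.1
      rcases (hs'.n3.nb x).1 hx with h9 | h9 | h9
      · have := hxA.1
        rw [h9, hs'.cm] at this; cases this
      · exact h9.symm
      · exact (tA_not_tQ hxA (h9 ▸ hq)).elim
    rcases not_clr' h3.2 h4 with h7 | ⟨w, h7, h8⟩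
    · simp only [Finset.mem_insert, Finset.mem_singleton] at h7
      rcases h7 with h7 | h7 | h7
      · exact (fr_not_T1 F fs (h7 ▸ h3.1)).elim
      · exact (tS_ne_tA F htS ta h7).elim
      · exact (tS_ne_tA F htS tb h7).elim
    · simp only [Finset.mem_insert, Finset.mem_singleton] at h8
      rcases h8 with h8 | h8 | h8
      · subst h8
        have := sv_mate F hs ⟨h7.symm, by rw [hs.cs]; exact htS.1⟩
        rw [this] at h5
        exact (hrs (rm_uniq (F.mu1 m) h5 (sv_rm hs).symm)).elim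
      · exact toG (fin2 (Or.inl (oneA a (h8 ▸ h7) ta)))
      · exact toG (fin2 (Or.inr (oneA b (h8 ▸ h7) tb)))
  · -- square
    have fK : ∀ g, Clr G (H ∪ {s, a, b}) g → g ≠ s := by
      rintro g hc rfl
      exact hc.1 (by simp)
    have fM : ∀ g, Clr G (H ∪ {s, a, b}) g → g ≠ m := by
      rintro g hc rfl
      exact hc.2 s (sv_rm hs).symm.1 (by simp)
    -- a live mate `k` of a surviving `e` is lost: it is the partner
    have key : ∀ e k, Clr G (H ∪ {s, a, b}) e → Rm G c e k → Live G c H k →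
        ¬ Live G c (H ∪ {s, a, b}) k → Ptn G c s a b k := by
      intro e k hc he hk hk'
      rcases live_U F hs ta tb hk (fun h => hk' ⟨hk.1, h⟩) with h8 | h8 | h8
      · exact (fM e hc (sv_mate F hs (by rw [← h8]; exact he.symm))).elim
      · exact (fK e hc (rm_uniq (F.mu1 m) (by rw [← h8]; exact he.symm) (sv_rm hs).symm)).elim
      · exact h8
    by_cases n2 : Live G c H v'
    · -- `v'` is the partner
      right; right; right; right; right
      have hp := key g v' h2.2 (sv_rm hq.h2) n2 h6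
      obtain ⟨e, w1, w2, hq1⟩ := hp.sqr F hs ta tb
      have e1 : e = g := sv_mate F hq1.h2 (sv_rm hq.h2).symm |>.symm
      subst e1
      exact ⟨v', a, b, m, e, w1, w2, f, z, y1, v1, w, w', hq1, n2, hq.swapS, h2, LS.live F h1, h4,
        Or.inr ⟨rfl, h5⟩⟩
    · rcases h3 with (h3 | h3) | h3
      · right; right; right; right; right
        have hp := key f v1 h1.2.2.2.1 (sv_rm hq.h1) h3 h4
        obtain ⟨e, w1, w2, hq1⟩ := hp.sqr F hs ta tb
        have e1 : e = f := sv_mate F hq1.h2 (sv_rm hq.h1).symm |>.symm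
        subst e1
        exact ⟨v1, a, b, m, e, w1, w2, g, z, y1, v', w, w', hq1, h3, hq, LS.live F h1, h2, h6,
          Or.inl rfl⟩
      · have hnc : ¬ Clr G (H ∪ {s, a, b}) v1 := fun h => h5 ⟨h3.1, h⟩
        have htS := t1_tS F h3.1
        have hvK : v1 ∉ H ∪ {s, a, b} := h1.2.2.2.1.2 v1 (sv_rm hq.h1).1
        have sp : ∀ x, G.Adj v1 x → SpB G c H x f := fun x hx =>
          ⟨v1, g, z, y1, v', w, w', hx.symm, h3, hq, LS.live F hl, h2.mono Finset.subset_union_left,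
            n2⟩
        rcases not_clr' h3.2 hnc with h7 | ⟨x, h7, h8⟩
        · exact (hvK (Finset.mem_union_right _ h7)).elim
        · simp only [Finset.mem_insert, Finset.mem_singleton] at h8
          rcases h8 with h8 | h8 | h8
          · subst h8
            have e1 : v1 = m := sv_mate F hs ⟨h7.symm, by rw [hs.cs]; exact htS.1⟩
            exact (fK f h1.2.2.2.1 (rm_uniq (F.mu1 m) (by rw [← e1]; exact (sv_rm hq.h1).symm)
              (sv_rm hs).symm)).elim
          · exact Or.inr (Or.inr (Or.inr (Or.inl (h8 ▸ sp x h7))))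
          · exact Or.inr (Or.inr (Or.inr (Or.inr (Or.inl (h8 ▸ sp x h7)))))
      · exact (n2 h3).elim

/-- live vertices lost by `N(u,a)` -/
theorem live_N {u v a b x y : V} (hu : Sv G c u v a b) (ha : Av G c a u x y) (ta : tA G c a)
    (tb : tA G c b) (bx : Bare G c H u x) (by' : Bare G c H u y) {g : V} (hg : Live G c H g)
    (hc : ¬ Clr G (H ∪ {u, b, x, a, y}) g) : g = u ∨ g = v := by
  have fu : u ∈ Fr G c := (sv_Fr F.mu1 hu).2 ⟨ta, tb⟩
  have bxy : ∀ w, (w = x ∨ w = y) → Bare G c H u w := by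
    rintro w (h | h)
    · exact h ▸ bx
    · exact h ▸ by'
  have nK : ∀ g, Clr G H g → tS G c g → (g = x ∨ g = y) → g = v := by
    intro g hc hgS h
    obtain ⟨m, hm⟩ := exists_mate hgS.2
    rcases bxy g h m hm with h1 | h1
    · exact sv_mate F hu (by rw [← h1]; exact hm.symm)
    · exact (hc.2 m hm.1 h1).elim
  have nxy : ∀ g w, Clr G H g → tS G c g → (w = x ∨ w = y) → G.Adj g w → g = u := by
    intro g w hc hgS h hadj
    have cw : c w = false := by
      rcases h with h | h <;> subst h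
      · exact ha.cy
      · exact ha.cz
    rcases bxy w h g ⟨hadj.symm, by rw [cw]; exact hgS.1⟩ with h1 | h1
    · exact h1
    · exact (hc.1 h1).elim
  have na : ∀ g, Clr G H g → tS G c g → G.Adj a g → g = u ∨ g = v := by
    intro g hc hgS h
    rcases (ha.n3.nb g).1 h with h1 | h1 | h1
    · exact Or.inl h1
    · exact Or.inr (nK g hc hgS (Or.inl h1))
    · exact Or.inr (nK g hc hgS (Or.inr h1))
  have hgS := fr_tS F hg.1
  rcases not_clr' hg.2 hc with h1 | ⟨w, h1, h2⟩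
  · simp only [Finset.mem_insert, Finset.mem_singleton] at h1
    rcases h1 with h1 | h1 | h1 | h1 | h1
    · exact Or.inl h1
    · exact (tS_ne_tA F hgS tb h1).elim
    · exact Or.inr (nK g hg.2 hgS (Or.inl h1))
    · exact (tS_ne_tA F hgS ta h1).elim
    · exact Or.inr (nK g hg.2 hgS (Or.inr h1))
  · simp only [Finset.mem_insert, Finset.mem_singleton] at h2
    rcases h2 with h2 | h2 | h2 | h2 | h2
    · subst h2
      exact Or.inr (sv_mate F hu ⟨h1.symm, by rw [hu.cs]; exact hgS.1⟩)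
    · subst h2
      rcases fr_near F hu ta tb hg.1 (Or.inr h1.symm) with h3 | h3
      · exact Or.inl h3
      · exact na g hg.2 hgS h3.2.2.1
    · exact Or.inl (nxy g w hg.2 hgS (Or.inl h2) h1)
    · subst h2
      exact na g hg.2 hgS h1.symm
    · exact Or.inl (nxy g w hg.2 hgS (Or.inr h2) h1)

end facts

/-! ### counting -/

/-- the set of the elements with `P` has at most `n` elements (in covering form) -/
def Cov {α : Type} (P : α → Prop) (n : ℕ) : Prop := ∃ L : Finset α, L.card ≤ n ∧ ∀ p, P p → p ∈ L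

theorem Cov.mono {α : Type} {P Q : α → Prop} {m n : ℕ} (h : Cov P m) (hQ : ∀ p, Q p → P p)
    (hn : m ≤ n) : Cov Q n := by
  obtain ⟨L, h1, h2⟩ := h
  exact ⟨L, h1.trans hn, fun p hp => h2 p (hQ p hp)⟩

theorem Cov.or {α : Type} [DecidableEq α] {P Q : α → Prop} {m n : ℕ} (h : Cov P m) (h' : Cov Q n) :
    Cov (fun p => P p ∨ Q p) (m + n) := by
  obtain ⟨L, h1, h2⟩ := h
  obtain ⟨L', h1', h2'⟩ := h'
  refine ⟨L ∪ L', (Finset.card_union_le _ _).trans (by omega), fun p hp => ?_⟩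
  rcases hp with hp | hp
  · exact Finset.mem_union_left _ (h2 p hp)
  · exact Finset.mem_union_right _ (h2' p hp)

theorem Cov.one {α : Type} (x : α) : Cov (fun p => p = x) 1 :=
  ⟨{x}, by simp, fun p hp => by simp [hp]⟩

theorem Cov.none {α : Type} {P : α → Prop} (h : ∀ p, ¬ P p) : Cov P 0 :=
  ⟨∅, by simp, fun p hp => (h p hp).elim⟩

/-- at most one element -/
theorem Cov.sub {α : Type} {P : α → Prop} (h : ∀ p q, P p → P q → p = q) : Cov P 1 := by
  by_cases h1 : ∃ p, P p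
  · obtain ⟨p, hp⟩ := h1
    exact ⟨{p}, by simp, fun q hq => by simp [h q p hq hp]⟩
  · exact ⟨∅, by simp, fun q hq => (h1 ⟨q, hq⟩).elim⟩

theorem Cov.card {α : Type} [DecidableEq α] {P : α → Prop} {n : ℕ} (h : Cov P n) {S : Finset α}
    (hS : ∀ p ∈ S, P p) : S.card ≤ n := by
  obtain ⟨L, h1, h2⟩ := h
  exact (Finset.card_le_card fun p hp => h2 p (hS p hp)).trans h1

theorem cov_good {n : ℕ} (h : Cov (fun p : V × V => GS G c H p.1 p.2 ∧ ¬ GS G c H' p.1 p.2) n) :
    (good G c H \ good G c H').card ≤ n := by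
  refine h.card fun p hp => ?_
  rw [Finset.mem_sdiff, mem_good, mem_good] at hp
  exact hp

theorem cov_live {n : ℕ} (h : Cov (fun f : V => Live G c H f ∧ ¬ Live G c H' f) n) :
    (live G c H \ live G c H').card ≤ n := by
  refine h.card fun p hp => ?_
  rw [Finset.mem_sdiff, mem_live, mem_live] at hp
  exact hp

theorem cov_of_good {n : ℕ} (h : (good G c H \ good G c H').card ≤ n) :
    Cov (fun p : V × V => GS G c H p.1 p.2 ∧ ¬ GS G c H' p.1 p.2) n :=
  ⟨_, h, fun p hp => by rw [Finset.mem_sdiff, mem_good, mem_good]; exact hp⟩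

theorem cov_of_live {n : ℕ} (h : (live G c H \ live G c H').card ≤ n) :
    Cov (fun f : V => Live G c H f ∧ ¬ Live G c H' f) n :=
  ⟨_, h, fun p hp => by rw [Finset.mem_sdiff, mem_live, mem_live]; exact hp⟩

/-- composition of two steps (slots): `H ⊆ H1 ⊆ H'` is not needed -/
theorem cov_comp {H1 : Finset V} {m n : ℕ}
    (h : Cov (fun p : V × V => GS G c H p.1 p.2 ∧ ¬ GS G c H1 p.1 p.2) m)
    (h' : Cov (fun p : V × V => GS G c H1 p.1 p.2 ∧ ¬ GS G c H' p.1 p.2) n) :
    Cov (fun p : V × V => GS G c H p.1 p.2 ∧ ¬ GS G c H' p.1 p.2) (m + n) := by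
  refine (h.or h').mono (fun p hp => ?_) le_rfl
  by_cases h1 : GS G c H1 p.1 p.2
  · exact Or.inr ⟨h1, hp.2⟩
  · exact Or.inl ⟨hp.1, h1⟩

/-- composition of two steps (live vertices) -/
theorem cov_comp_live {H1 : Finset V} {m n : ℕ}
    (h : Cov (fun f : V => Live G c H f ∧ ¬ Live G c H1 f) m)
    (h' : Cov (fun f : V => Live G c H1 f ∧ ¬ Live G c H' f) n) :
    Cov (fun f : V => Live G c H f ∧ ¬ Live G c H' f) (m + n) := by
  refine (h.or h').mono (fun p hp => ?_) le_rfl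
  by_cases h1 : Live G c H1 p
  · exact Or.inr ⟨h1, hp.2⟩
  · exact Or.inl ⟨hp.1, h1⟩

section facts2

variable (F : Fx G c)
include F

/-- the slots of one free vertex -/
theorem cov_fst (H : Finset V) (f : V) : Cov (fun p : V × V => LS G c H p.1 p.2 ∧ p.1 = f) 2 := by
  by_cases h : ∃ z, LS G c H f z
  · obtain ⟨z, hz⟩ := h
    obtain ⟨v, b, hs, hb⟩ := fr_sv F hz.1 hz.2.2.1 hz.2.1
    refine ⟨{(f, z), (f, b)}, Finset.card_le_two, ?_⟩
    rintro ⟨f', z'⟩ ⟨h1, h2⟩
    simp only at h1 h2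
    subst h2
    simp only [Finset.mem_insert, Finset.mem_singleton, Prod.mk.injEq, true_and]
    rcases (hs.n3.nb z').1 h1.2.2.1 with h3 | h3 | h3
    · have := h1.2.1.1
      rw [h3, hs.cm] at this; cases this
    · exact Or.inl h3
    · exact Or.inr h3
  · exact ⟨∅, by simp, fun p hp => (h ⟨p.2, by rw [← hp.2]; exact hp.1⟩).elim⟩

/-- the slots of the free vertices with `P`, at most `n` vertices -/
theorem cov_fst' (H : Finset V) {P : V → Prop} {n : ℕ} (h : Cov P n) :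
    Cov (fun p : V × V => LS G c H p.1 p.2 ∧ P p.1) (2 * n) := by
  classical
  obtain ⟨L, h1, h2⟩ := h
  choose M hM1 hM2 using cov_fst F H
  refine ⟨L.biUnion M, ?_, fun p hp => ?_⟩
  · calc (L.biUnion M).card ≤ ∑ f ∈ L, (M f).card := Finset.card_biUnion_le
      _ ≤ ∑ f ∈ L, 2 := Finset.sum_le_sum fun f _ => hM1 f
      _ = L.card * 2 := by rw [Finset.sum_const, smul_eq_mul]
      _ ≤ 2 * n := by omega
  · exact Finset.mem_biUnion.2 ⟨p.1, h2 _ hp.2, hM2 p.1 p ⟨hp.1, rfl⟩⟩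

/-- SPOIL at `b` concerns at most one free vertex -/
theorem sp_uniq {u b f f' : V} (hu : u ∈ Fr G c) (hub : G.Adj b u) (tb : tA G c b)
    (h : SpB G c H b f) (h' : SpB G c H b f') : f = f' := by
  obtain ⟨t, g, z, y, v', w, w', h1, h2, h3, h4, h5, h6⟩ := h
  obtain ⟨t', g', z', y', v'', w1, w1', h1', h2', h3', h4', h5', h6'⟩ := h'
  have e : t = t' := by
    rcases F.f2 b u t t' tb (fr_tS F hu) (t1_tS F h2.1) (t1_tS F h2'.1) hub h1 h1' with h | h | h
    · exact (fr_not_T1 F hu (h ▸ h2.1)).elim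
    · exact (fr_not_T1 F hu (h ▸ h2'.1)).elim
    · exact h
  subst e
  exact rm_uniq (F.mu1 t) (sv_rm h3.h1).symm (sv_rm h3'.h1).symm

theorem cov_sp {u b : V} (hu : u ∈ Fr G c) (hub : G.Adj b u) (tb : tA G c b) :
    Cov (fun p : V × V => LS G c H p.1 p.2 ∧ SpB G c H b p.1) 2 :=
  cov_fst' F H (Cov.sub fun _ _ h h' => sp_uniq F hu hub tb h h')

/-- a good slot `(u,b)` and SPOIL at `b`: Case P2 -/
theorem sp_P2 {u b f : V} (hl : LS G c H u b) (h : SpB G c H b f) : P2 G c H := by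
  obtain ⟨t, g, z, y, v', w, w', h1, h2, h3, h4, h5, h6⟩ := h
  have ht : t ≠ u := by
    rintro rfl
    exact fr_not_T1 F hl.1 h2.1
  exact ⟨u, b, t, f, g, z, y, v', w, w', ⟨hl, h1, ht, h2.1, (sv_rm h3.h1).symm, h4.2.1⟩, h3, h4, h5,
    h6⟩

/-- slots at the other neighbours of a bare neighbour of `a` -/
theorem cov_w {u v a w : V} (hl : LS G c H u a) (hv : Rm G c u v) (haw : G.Adj a w) (hw : w ≠ u)
    (hb : Bare G c H u w) :
    Cov (fun p : V × V => LS G c H p.1 p.2 ∧ G.Adj p.2 w ∧ p.2 ≠ a ∧ p.1 ≠ u ∧ p.1 ≠ v) 2 := by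
  obtain ⟨L, h1, h2⟩ := st_DW V G c H F u v a w hl hv haw hw hb
  exact ⟨L, h1, fun p hp => h2 p.1 p.2 hp.1 hp.2.1 hp.2.2.1 hp.2.2.2.1 hp.2.2.2.2⟩

/-- `N` loses at most 8 good slots and those of SPOIL. -/
theorem cov_N {u v a b x y : V} (hu : Sv G c u v a b) (ha : Av G c a u x y) (ta : tA G c a)
    (tb : tA G c b) (cu : Clr G H u) (ca : Clr G H a) (bx : Bare G c H u x)
    (by' : Bare G c H u y) {n : ℕ}
    (hsp : Cov (fun p : V × V => LS G c H p.1 p.2 ∧ SpB G c H b p.1) n) :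
    Cov (fun p : V × V => GS G c H p.1 p.2 ∧ ¬ GS G c (H ∪ {u, b, x, a, y}) p.1 p.2) (8 + n) := by
  have fu : u ∈ Fr G c := (sv_Fr F.mu1 hu).2 ⟨ta, tb⟩
  have hl : LS G c H u a := ⟨fu, ta, (hu.n3.nb a).2 (by tauto), cu, ca⟩
  have hx := cov_w F hl (sv_rm hu) ((ha.n3.nb x).2 (by tauto)) ha.n3.xy.symm bx
  have hy := cov_w F hl (sv_rm hu) ((ha.n3.nb y).2 (by tauto)) ha.n3.xz.symm by'
  refine (((((cov_fst F H u).or (cov_fst F H v)).or hx).or hy).or hsp).mono ?_ le_rfl
  rintro ⟨f, z⟩ ⟨h1, h2⟩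
  simp only at h1 h2 ⊢
  have h3 := h1.1
  by_cases hfu : f = u
  · exact Or.inl (Or.inl (Or.inl (Or.inl ⟨h3, hfu⟩)))
  by_cases hfv : f = v
  · exact Or.inl (Or.inl (Or.inl (Or.inr ⟨h3, hfv⟩)))
  rcases loss_N F hu ha ta tb cu ca bx by' h1 h2 with h | h | h | h | h
  · exact (hfu h).elim
  · exact (hfv h).elim
  · exact Or.inr ⟨h3, h⟩
  · exact Or.inl (Or.inl (Or.inr ⟨h3, h.1, h.2, hfu, hfv⟩))
  · exact Or.inl (Or.inr ⟨h3, h.1, h.2, hfu, hfv⟩)

theorem cov_N_live {u v a b x y : V} (hu : Sv G c u v a b) (ha : Av G c a u x y) (ta : tA G c a)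
    (tb : tA G c b) (bx : Bare G c H u x) (by' : Bare G c H u y) :
    Cov (fun f : V => Live G c H f ∧ ¬ Live G c (H ∪ {u, b, x, a, y}) f) 2 := by
  refine ((Cov.one u).or (Cov.one v)).mono (fun g hg => ?_) le_rfl
  exact live_N F hu ha ta tb bx by' hg.1 (fun h => hg.2 ⟨hg.1.1, h⟩)

theorem cov_U_live {s m a b : V} (hs : Sv G c s m a b) (ta : tA G c a) (tb : tA G c b) :
    Cov (fun f : V => Live G c H f ∧ ¬ Live G c (H ∪ {s, a, b}) f) 3 := by
  have fs : s ∈ Fr G c := (sv_Fr F.mu1 hs).2 ⟨ta, tb⟩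
  refine (((Cov.one s).or (Cov.one m)).or (Cov.sub (P := fun g => Ptn G c s a b g)
    fun p q hp hq => hp.uniq F hq fs ((hs.n3.nb a).2 (by tauto)).symm ta)).mono
    (fun g hg => ?_) le_rfl
  rcases live_U F hs ta tb hg.1 (fun h => hg.2 ⟨hg.1.1, h⟩) with h | h | h
  · exact Or.inl (Or.inl h)
  · exact Or.inl (Or.inr h)
  · exact Or.inr h

/-- D_C1 -/
theorem pn_loss (h : PN G c H) : ∃ H', OpN G c H H' ∧ Loss G c H H' 10 2 := by
  obtain ⟨u, a, hl, hb⟩ := h
  obtain ⟨v, b, hs, tb⟩ := fr_sv F hl.1 hl.2.2.1 hl.2.1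
  obtain ⟨x, y, ha⟩ := av_ex F.reg hl.2.1 hl.2.2.1.symm
  have bx : Bare G c H u x := hb x ((ha.n3.nb x).2 (by tauto)) ha.n3.xy.symm
  have by' : Bare G c H u y := hb y ((ha.n3.nb y).2 (by tauto)) ha.n3.xz.symm
  have hub : G.Adj b u := ((hs.n3.nb b).2 (by tauto)).symm
  refine ⟨_, ⟨u, v, a, b, x, y, hs, ha, hl.2.1, tb, hl.2.2.2.1, hl.2.2.2.2, bx, by', rfl⟩, ?_, ?_⟩
  · exact cov_good (cov_N F hs ha hl.2.1 tb hl.2.2.2.1 hl.2.2.2.2 bx by' (cov_sp F hl.1 hub tb))
  · exact cov_live (cov_N_live F hs ha hl.2.1 tb bx by')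

end facts2

theorem st_DC1 : ST_DC1 := by
  intro V _ _ G _ c H F h
  obtain ⟨H', h1, h2, h3⟩ := pn_loss F h
  exact ⟨H', h1, h2.trans (by norm_num), h3⟩

end Pool.Agent.Helper33.MC
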