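import Mathlib
import Pool.Agent.Helper33.MC.Loss2
import Pool.Agent.Helper79.MC.G3
import Pool.Agent.Helper91.MC.GK
import Pool.Agent.Helper96.MC.LSt
import Pool.Agent.Helper6.MC.OpK

/-!
MP_4042d8_co, section D, part II: `2 ≤ j`, ARBITRARY simple cubic graphs (text: ando_sec_D2.txt).
Statement file. A state is a finset `H` of vertices (the hard set). Weights are doubled: a good slot
counts 2, a good branch of a `K`-slot counts 1.
-/

set_option autoImplicit false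
set_option linter.unusedSectionVars false
set_option linter.unusedVariables false

namespace Pool.Agent.Helper33.MC

open Pool.Agent.Helper27.MC hiding Fr T1 ter
open Pool.Agent.Helper51.MC Pool.Agent.Helper88.MC Pool.Agent.Helper64.MC
open Pool.Agent.Helper79.MC (Sqg)
open Pool.Agent.Helper91.MC.GK (Khb)
open Pool.Agent.Helper96.MC (Td Apx Lx Exm)
open Pool.Agent.Helper6.MC (KB OpK3 OpK4 OpKH RunG)

section defs

variable {V : Type} [Fintype V] [DecidableEq V] (G : SimpleGraph V) [DecidableRel G.Adj]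

/-- The facts used in section D, part II (arbitrary simple cubic graph, `2 ≤ j`). -/
structure FxG (c : V → Bool) (j : ℕ) (L : V → V → Prop) : Prop where
  reg : G.IsRegularOfDegree 3
  mu1 : ∀ v, mu G c v ≤ 1
  f1 : ∀ q s s', tQ G c q → tS G c s → tS G c s' → G.Adj q s → G.Adj q s' → s ≠ s' → Rm G c s s'
  f2 : ∀ a s1 s2 s3, Av G c a s1 s2 s3 → tA G c a → tS G c s1 → tS G c s2 → tS G c s3 →
    Rm G c s1 s2 ∨ Rm G c s1 s3 ∨ Rm G c s2 s3
  g1 : ∀ a s1 s2, tA G c a → s1 ∈ Fr G c → s2 ∈ Fr G c → s1 ≠ s2 → ¬ Rm G c s1 s2 → G.Adj a s1 →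
    G.Adj a s2 → ∃ b v1 v2 za zb, Sqg G c s1 s2 a b v1 v2 za zb
  g2 : ∀ a f1 f2 f3, Av G c a f1 f2 f3 → tA G c a → f1 ∈ Fr G c → f2 ∈ Fr G c → f3 ∉ Fr G c
  g3 : ∀ u v a b t1 t2 r1 r2 p1 p2, Khb G c u v a b t1 t2 r1 r2 p1 p2 →
    r1 ≠ r2 ∧ ¬ Apx G c r1 ∧ ¬ Apx G c p1
  g3' : ∀ u v a b t1 t2 r1 r2 p1 p2 g z, Khb G c u v a b t1 t2 r1 r2 p1 p2 → N3 G p1 r1 g z →
    tS G c g → tB G c z
  k1 : ∀ u v a b t1 t2 r1 r2 p1 p2 g z m e, Khb G c u v a b t1 t2 r1 r2 p1 p2 → N3 G p1 r1 g z →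
    tB G c z → Sv G c g m p1 e → tA G c e → g ≠ v → g ≠ t2 → e = b
  r3 : ∀ s1 s2 a b v1 v2 za zb n1 n2 f, Sqg G c s1 s2 a b v1 v2 za zb → N3 G za a n1 n2 →
    tB G c za → tA G c n1 → tA G c n2 → f ∈ Fr G c → f ≠ v1 → f ≠ v2 → G.Adj f n1 → G.Adj f n2
  r4 : ∀ s1 s2 a b v1 v2 za zb n x y, Sqg G c s1 s2 a b v1 v2 za zb → tA G c n → n ≠ a →
    G.Adj n za → tS G c x → tS G c y → G.Adj n x → G.Adj n y → x ≠ y → x ≠ v1 → x ≠ v2 → y ≠ v1 →
    y ≠ v2 → x ≠ za → y ≠ za → Rm G c x y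
  r5 : ∀ s1 s2 a b v1 v2 za zb f v x y t1 t2 r1 r2 p1 p2 n2, Sqg G c s1 s2 a b v1 v2 za zb →
    Khb G c f v x y t1 t2 r1 r2 p1 p2 → N3 G za a p1 n2 → tB G c za → tA G c n2 → f ≠ v1 →
    f ≠ v2 → G.Adj f n2
  ex : ∀ q p t m e, Apx G c q → Rm G c q p → ¬ Apx G c p → Sv G c t m p e → tA G c e →
    (∃ k k', Av G c e t k k' ∧ Rm G c k k') ∧
      ∀ x x' n n', Td G c q p x x' n n' → ¬ (tA G c n ∧ tA G c n')
  o1 : ∀ q p t y y', tQ G c q → Rm G c q p → G.Adj q t → t ∈ T1 G c → G.Adj p y → G.Adj p y' →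
    y ∈ T1 G c → y' ∈ T1 G c → y = y'
  lx : Lx G c j L
  lm : ∀ v v' y y', L v y → L v' y' → Rm G c y y' → v = v'

/-- good slot (weight 1): kind `N`; kind `M` with available `t`; or a slot of an intact square which
is `F`-mated, or whose vertex has its mate in `T1` available, or has an available source. -/
def GSG (c : V → Bool) (L : V → V → Prop) (H : Finset V) (f x : V) : Prop :=
  LS G c H f x ∧
  ((∀ w, G.Adj x w → w ≠ f → Bare G c H f w) ∨
   (∃ t, G.Adj x t ∧ t ≠ f ∧ Avl G c H t ∧ ∀ w, G.Adj x w → w ≠ f → w ≠ t → Bare G c H f w) ∨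
   (∃ g, G.Adj x g ∧ g ≠ f ∧ ¬ Rm G c f g ∧ Live G c H g ∧
     ((∃ m, Rm G c f m ∧ (Live G c H m ∨ Avl G c H m)) ∨ (∃ m, Rm G c g m ∧ Live G c H m) ∨
      ∃ m y, Rm G c f m ∧ L m y ∧ Avl G c H y)))

/-- good branch (weight 1/2) of the `K`-slot `(u,a)`: its vertex `t` (in `T1`); `k` is the mate of
the `Q`-neighbour `q` of `t`. -/
def GB (c : V → Bool) (H : Finset V) (t : V) : Prop :=
  ∃ u v a b t' q q' k k', Khb G c u v a b t t' q q' k k' ∧ LS G c H u a ∧ Clr G H k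

open Classical in
noncomputable def goodG (c : V → Bool) (L : V → V → Prop) (H : Finset V) : Finset (V × V) :=
  Finset.univ.filter (fun p => GSG G c L H p.1 p.2)

open Classical in
noncomputable def goodB (c : V → Bool) (H : Finset V) : Finset V :=
  Finset.univ.filter (fun t => GB G c H t)

/-- the potential (doubled) -/
noncomputable def Lam2 (c : V → Bool) (L : V → V → Prop) (H : Finset V) : ℕ :=
  2 * (goodG G c L H).card + (goodB G c H).card

/-- loss bounds of one step (doubled weights `m`, live free vertices `n`) -/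
def LossG (c : V → Bool) (L : V → V → Prop) (H H' : Finset V) (m n : ℕ) : Prop :=
  2 * (goodG G c L H \ goodG G c L H').card + (goodB G c H \ goodB G c H').card ≤ m ∧
    (live G c H \ live G c H').card ≤ n

/-- an `N''`-slot is live: `u`, `v` live free mates at `a`, the third neighbour in `B` -/
def Q0G (c : V → Bool) (H : Finset V) : Prop :=
  ∃ u v a w, LS G c H u a ∧ Rm G c u v ∧ Live G c H v ∧ G.Adj a v ∧ G.Adj a w ∧ tB G c w

/-- `M`-slot `(u,a)`: exactly one other neighbour of `a` is not bare, it is `t` in `T1`; `r` is its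
mate -/
def MSG (c : V → Bool) (H : Finset V) (u a t r : V) : Prop :=
  LS G c H u a ∧ G.Adj a t ∧ t ≠ u ∧ t ∈ T1 G c ∧ Rm G c t r ∧ r ≠ u ∧ r ∉ H ∧
    ∀ w, G.Adj a w → w ≠ u → w ≠ t → Bare G c H u w

/-- Case 2: an `M`-slot `(u,a)`, `r` in an intact square without live free mates -/
def Q2G (c : V → Bool) (H : Finset V) : Prop :=
  ∃ u a t r r' x y v' zx zy, MSG G c H u a t r ∧ Sqg G c r r' x y t v' zx zy ∧ Live G c H r ∧
    Live G c H r' ∧ ¬ Live G c H v'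

/-- Case 3: an intact square with a live free mate and a live slot -/
def Q3G (c : V → Bool) (H : Finset V) : Prop :=
  ∃ s1 s2 a b v1 v2 za zb, Sqg G c s1 s2 a b v1 v2 za zb ∧ Live G c H s1 ∧ Live G c H s2 ∧
    LS G c H s1 a ∧ Live G c H v2

/-- Case 4: an `M`-slot with `r` live free -/
def Q4G (c : V → Bool) (H : Finset V) : Prop := ∃ u a t r, MSG G c H u a t r ∧ Live G c H r

/-- Case 5s: a good slot of an intact square -/
def Q5s (c : V → Bool) (L : V → V → Prop) (H : Finset V) : Prop :=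
  ∃ s1 s2 a b v1 v2 za zb, Sqg G c s1 s2 a b v1 v2 za zb ∧ GSG G c L H s1 a ∧ Live G c H s2

/-- Case 5n1: a good `M''`-slot: `u`, `v` live free mates at `a`, third neighbour `t` -/
def Q5a (c : V → Bool) (H : Finset V) : Prop :=
  ∃ u v a t r, MSG G c H u a t r ∧ Avl G c H t ∧ Rm G c u v ∧ G.Adj a v ∧ Live G c H v

/-- Case 5n2: a good `M`-slot -/
def Q5b (c : V → Bool) (H : Finset V) : Prop := ∃ u a t r, MSG G c H u a t r ∧ Avl G c H t

/-- SPOIL at `b`: the vertex `f` of an intact square without live free mates has its mate, or a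
source of its mate, at `b` (an available vertex `t` of `T1`). -/
def SpG (c : V → Bool) (L : V → V → Prop) (H : Finset V) (b f : V) : Prop :=
  ∃ t g x y m m' zx zy, G.Adj b t ∧ Avl G c H t ∧ Sqg G c f g x y m m' zx zy ∧ Live G c H f ∧
    Live G c H g ∧ ¬ Live G c H m ∧ ¬ Live G c H m' ∧ (m = t ∨ L m t)

end defs

/-! ### Facts -/

/-- G_FX -/
def ST_GFX : Prop :=
  ∀ (V : Type) [Fintype V] [DecidableEq V] (G : SimpleGraph V) [DecidableRel G.Adj],
    G.IsRegularOfDegree 3 → ∀ (c : V → Bool) (j : ℕ), 2 ≤ j → Exm G c j →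
      ∃ L : V → V → Prop, FxG G c j L

/-- G_ST: the start. -/
def ST_GST : Prop :=
  ∀ (V : Type) [Fintype V] [DecidableEq V] (G : SimpleGraph V) [DecidableRel G.Adj],
    ∀ (c : V → Bool) (j : ℕ) (L : V → V → Prop), FxG G c j L →
      24 * j ≤ Lam2 G c L ∅ ∧ 6 * j ≤ (live G c ∅).card

/-! ### Shared lemmas -/

/-- G_CLS: kinds of live slots: `N`, `M`, square (intact), or `K`. -/
def ST_GCLS : Prop :=
  ∀ (V : Type) [Fintype V] [DecidableEq V] (G : SimpleGraph V) [DecidableRel G.Adj],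
    ∀ (c : V → Bool) (j : ℕ) (L : V → V → Prop) (H : Finset V), FxG G c j L →
      ∀ f x, LS G c H f x →
      NS G c H f x ∨ (∃ t r, MSG G c H f x t r) ∨
      (∃ g y v v' zx zy, Sqg G c f g x y v v' zx zy ∧ Live G c H g ∧ LS G c H g x) ∨
      ∃ v y t1 t2 r1 r2 p1 p2, Khb G c f v x y t1 t2 r1 r2 p1 p2

/-- G_GL: a good slot which is not good any more. -/
def ST_GGL : Prop :=
  ∀ (V : Type) [Fintype V] [DecidableEq V] (G : SimpleGraph V) [DecidableRel G.Adj],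
    ∀ (c : V → Bool) (j : ℕ) (L : V → V → Prop) (H H' : Finset V), FxG G c j L → H ⊆ H' →
      ∀ f x, GSG G c L H f x → ¬ GSG G c L H' f x →
      ¬ Clr G H' f ∨ ¬ Clr G H' x ∨
      (∃ t r, MSG G c H f x t r ∧ Avl G c H t ∧ ¬ Clr G H' t ∧ r ∉ H') ∨
      ∃ g y v v' zx zy, Sqg G c f g x y v v' zx zy ∧ LS G c H' f x ∧ Live G c H' g ∧
        (Live G c H v ∨ Avl G c H v ∨ Live G c H v' ∨ ∃ y', L v y' ∧ Avl G c H y') ∧
        ¬ Live G c H' v ∧ ¬ Avl G c H' v ∧ ¬ Live G c H' v' ∧ ∀ y', L v y' → ¬ Avl G c H' y'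

/-- G_W: weight at the other neighbours of a bare neighbour `w` of `a`: at most 5/2 (at most 4 if
an `N''`-slot is live); at most 2 except in one situation. Slots of `u` and `v` are not counted. -/
def ST_GW : Prop :=
  ∀ (V : Type) [Fintype V] [DecidableEq V] (G : SimpleGraph V) [DecidableRel G.Adj],
    ∀ (c : V → Bool) (j : ℕ) (L : V → V → Prop) (H : Finset V), FxG G c j L →
      ∀ u v a w, LS G c H u a → Rm G c u v → G.Adj a w → w ≠ u → Bare G c H u w →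
      ∃ (LA : Finset (V × V)) (LQ : Finset V),
        2 * LA.card + LQ.card ≤ 8 ∧ (¬ Q0G G c H → 2 * LA.card + LQ.card ≤ 5) ∧
        (∀ f x, LS G c H f x → G.Adj x w → x ≠ a → f ≠ u → f ≠ v → (f, x) ∈ LA) ∧
        (∀ t f v' x y t' q q' k k', Khb G c f v' x y t t' q q' k k' → LS G c H f x →
          Clr G H k → G.Adj k w → f ≠ u → f ≠ v → t ∈ LQ) ∧
        (¬ Q0G G c H → 2 * LA.card + LQ.card ≤ 4 ∨
          (tB G c w ∧ ∃ s1 s2 n n' v1 v2 zb v' x y t t' q q' k k',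
            Sqg G c s1 s2 n n' v1 v2 w zb ∧ LS G c H s1 n ∧ LS G c H s2 n ∧ n ≠ a ∧
            Khb G c v1 v' x y t t' q q' k k' ∧ LS G c H v1 x ∧ Clr G H k ∧ G.Adj k w))

/-- G_SP: SPOIL at the other hub `b` of the free vertex `u` concerns at most one free vertex (so at
most two slots). -/
def ST_GSP : Prop :=
  ∀ (V : Type) [Fintype V] [DecidableEq V] (G : SimpleGraph V) [DecidableRel G.Adj],
    ∀ (c : V → Bool) (j : ℕ) (L : V → V → Prop) (H : Finset V), FxG G c j L →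
      ∀ u b f f', u ∈ Fr G c → tA G c b → G.Adj b u → f ≠ u → f' ≠ u →
        SpG G c L H b f → SpG G c L H b f' → f = f'

/-! ### Steps -/

/-- G_C0: Case 0, an `N''`-slot. -/
def ST_GC0 : Prop :=
  ∀ (V : Type) [Fintype V] [DecidableEq V] (G : SimpleGraph V) [DecidableRel G.Adj],
    ∀ (c : V → Bool) (j : ℕ) (L : V → V → Prop) (H : Finset V), FxG G c j L → Inv G c H →
      Q0G G c H → ∃ H', OpN G c H H' ∧ LossG G c L H H' 24 2

/-- G_C1: Case 1, an `N`-slot. -/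
def ST_GC1 : Prop :=
  ∀ (V : Type) [Fintype V] [DecidableEq V] (G : SimpleGraph V) [DecidableRel G.Adj],
    ∀ (c : V → Bool) (j : ℕ) (L : V → V → Prop) (H : Finset V), FxG G c j L → Inv G c H →
      ¬ Q0G G c H → PN G c H → ∃ H', OpN G c H H' ∧ LossG G c L H H' 24 2

/-- G_C2 -/
def ST_GC2 : Prop :=
  ∀ (V : Type) [Fintype V] [DecidableEq V] (G : SimpleGraph V) [DecidableRel G.Adj],
    ∀ (c : V → Bool) (j : ℕ) (L : V → V → Prop) (H : Finset V), FxG G c j L → Inv G c H →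
      ¬ PN G c H → Q2G G c H →
      ∃ H1 H', OpU G c H H1 ∧ OpN G c H1 H' ∧ LossG G c L H H' 24 5

/-- G_C3 -/
def ST_GC3 : Prop :=
  ∀ (V : Type) [Fintype V] [DecidableEq V] (G : SimpleGraph V) [DecidableRel G.Adj],
    ∀ (c : V → Bool) (j : ℕ) (L : V → V → Prop) (H : Finset V), FxG G c j L → Inv G c H →
      ¬ PN G c H → ¬ Q2G G c H → Q3G G c H →
      ∃ H1 H', OpU G c H H1 ∧ OpN G c H1 H' ∧ LossG G c L H H' 24 5

/-- G_C4 -/
def ST_GC4 : Prop :=
  ∀ (V : Type) [Fintype V] [DecidableEq V] (G : SimpleGraph V) [DecidableRel G.Adj],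
    ∀ (c : V → Bool) (j : ℕ) (L : V → V → Prop) (H : Finset V), FxG G c j L → Inv G c H →
      ¬ PN G c H → ¬ Q2G G c H → ¬ Q3G G c H → Q4G G c H →
      ∃ H1 H', OpU G c H H1 ∧ OpN G c H1 H' ∧ LossG G c L H H' 24 5

/-- G_C5s: Case 5s. -/
def ST_GC5s : Prop :=
  ∀ (V : Type) [Fintype V] [DecidableEq V] (G : SimpleGraph V) [DecidableRel G.Adj],
    ∀ (c : V → Bool) (j : ℕ) (L : V → V → Prop) (H : Finset V), FxG G c j L → Inv G c H →
      ¬ PN G c H → ¬ Q2G G c H → ¬ Q3G G c H → ¬ Q4G G c H → 24 ≤ Lam2 G c L H →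
      Q5s G c L H → ∃ H1 H', OpM G c H H1 ∧ OpV G c H1 H' ∧ LossG G c L H H' 24 5

/-- G_C5a: Case 5n1, a good `M''`-slot. -/
def ST_GC5a : Prop :=
  ∀ (V : Type) [Fintype V] [DecidableEq V] (G : SimpleGraph V) [DecidableRel G.Adj],
    ∀ (c : V → Bool) (j : ℕ) (L : V → V → Prop) (H : Finset V), FxG G c j L → Inv G c H →
      ¬ PN G c H → ¬ Q2G G c H → ¬ Q3G G c H → ¬ Q4G G c H → 24 ≤ Lam2 G c L H →
      ¬ Q5s G c L H → Q5a G c H → ∃ H1 H', OpM G c H H1 ∧ OpV G c H1 H' ∧ LossG G c L H H' 24 5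

/-- G_C5b: Case 5n2, a good `M`-slot. -/
def ST_GC5b : Prop :=
  ∀ (V : Type) [Fintype V] [DecidableEq V] (G : SimpleGraph V) [DecidableRel G.Adj],
    ∀ (c : V → Bool) (j : ℕ) (L : V → V → Prop) (H : Finset V), FxG G c j L → Inv G c H →
      ¬ PN G c H → ¬ Q2G G c H → ¬ Q3G G c H → ¬ Q4G G c H → 24 ≤ Lam2 G c L H →
      ¬ Q5s G c L H → ¬ Q5a G c H → Q5b G c H →
      ∃ H1 H', OpM G c H H1 ∧ OpV G c H1 H' ∧ LossG G c L H H' 24 5

/-- G_C5c: Case 5n3, only `K`-slots. -/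
def ST_GC5c : Prop :=
  ∀ (V : Type) [Fintype V] [DecidableEq V] (G : SimpleGraph V) [DecidableRel G.Adj],
    ∀ (c : V → Bool) (j : ℕ) (L : V → V → Prop) (H : Finset V), FxG G c j L → Inv G c H →
      ¬ PN G c H → ¬ Q2G G c H → ¬ Q3G G c H → ¬ Q4G G c H → 24 ≤ Lam2 G c L H →
      ¬ Q5s G c L H → ¬ Q5a G c H → ¬ Q5b G c H →
      (∃ H', OpK3 G c H H' ∧ LossG G c L H H' 24 2) ∨
      ∃ H1 H', (OpK4 G c H H1 ∨ OpKH G c H H1) ∧ OpV G c H1 H' ∧ LossG G c L H H' 24 5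

/-- G_PH: phase 2. -/
def ST_GPH : Prop :=
  ∀ (V : Type) [Fintype V] [DecidableEq V] (G : SimpleGraph V) [DecidableRel G.Adj],
    ∀ (c : V → Bool) (j : ℕ) (L : V → V → Prop) (H : Finset V), FxG G c j L →
      ∀ s, Live G c H s → ∃ H', OpU G c H H' ∧ (live G c H \ live G c H').card ≤ 3

/-- G_INV: the invariant is kept. -/
def ST_GINV : Prop :=
  ∀ (V : Type) [Fintype V] [DecidableEq V] (G : SimpleGraph V) [DecidableRel G.Adj],
    ∀ (c : V → Bool) (j : ℕ) (L : V → V → Prop), FxG G c j L →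
      ∀ i k H, RunG G c i k H → Inv G c H

/-- G_COMB: the combinatorial conclusion. -/
def ST_GCOMB : Prop :=
  ∀ (V : Type) [Fintype V] [DecidableEq V] (G : SimpleGraph V) [DecidableRel G.Adj],
    ∀ (c : V → Bool) (j : ℕ) (L : V → V → Prop), FxG G c j L → ∃ H, RunG G c j 0 H

/-- G_J: the case `2 ≤ j`, all cubic graphs. -/
def ST_GJ : Prop :=
  ∀ (V : Type) [Fintype V] [DecidableEq V] (G : SimpleGraph V) [DecidableRel G.Adj],
    G.IsRegularOfDegree 3 → ∀ (c : V → Bool) (j : ℕ), 2 ≤ j → Opt G c j → Good G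

end Pool.Agent.Helper33.MC
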