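import Mathlib
import Pool.Agent.Helper33.MC.StG

/-!
MP_4042d8_co, section D, part II: basic lemmas over `FxG`, rows G_CLS, G_GL, G_SP.
-/

set_option autoImplicit false
set_option linter.unusedSectionVars false
set_option linter.unusedVariables false

namespace Pool.Agent.Helper33.MC

open Pool.Agent.Helper27.MC hiding Fr T1 ter
open Pool.Agent.Helper51.MC Pool.Agent.Helper88.MC Pool.Agent.Helper64.MC
open Pool.Agent.Helper91.MC
open Pool.Agent.Helper79.MC (Sqg)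
open Pool.Agent.Helper91.MC.GK (Khb)
open Pool.Agent.Helper96.MC (Td Apx Lx Exm)

variable {V : Type} [Fintype V] [DecidableEq V] {G : SimpleGraph V} [DecidableRel G.Adj]
  {c : V → Bool} {j : ℕ} {L : V → V → Prop} {H H' : Finset V}

theorem Bare.mono (hHH : H ⊆ H') {u x : V} (h : Bare G c H u x) : Bare G c H' u x :=
  fun y hy => (h y hy).imp_right fun h' => hHH h'

theorem mem_goodG {p : V × V} : p ∈ goodG G c L H ↔ GSG G c L H p.1 p.2 := by
  unfold goodG
  simp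

theorem mem_goodB {t : V} : t ∈ goodB G c H ↔ GB G c H t := by
  unfold goodB
  simp

/-- not bare: the mate is not in `H` and is not `u` -/
theorem not_bare {u x : V} (h : ¬ Bare G c H u x) : ∃ m, Rm G c x m ∧ m ≠ u ∧ m ∉ H := by
  unfold Bare at h
  push Not at h
  exact h

theorem Live.ls {f x : V} (h : Live G c H f) (hx : tA G c x) (ha : G.Adj f x) (hc : Clr G H x) :
    LS G c H f x := ⟨h.1, hx, ha, h.2, hc⟩

theorem LS.lv {f x : V} (h : LS G c H f x) : Live G c H f := ⟨h.1, h.2.2.2.1⟩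

theorem LS.fr {f x : V} (h : LS G c H f x) : f ∈ Fr G c := h.1
theorem LS.ta {f x : V} (h : LS G c H f x) : tA G c x := h.2.1
theorem LS.adj {f x : V} (h : LS G c H f x) : G.Adj f x := h.2.2.1
theorem LS.cf {f x : V} (h : LS G c H f x) : Clr G H f := h.2.2.2.1
theorem LS.cx {f x : V} (h : LS G c H f x) : Clr G H x := h.2.2.2.2

theorem GSG.ls {f x : V} (h : GSG G c L H f x) : LS G c H f x := h.1

section facts

variable (F : FxG G c j L)
include F

theorem fr_svG {f x : V} (hf : f ∈ Fr G c) (h : G.Adj f x) (hx : tA G c x) :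
    ∃ v y, Sv G c f v x y ∧ tA G c y := by
  obtain ⟨v, y, hs⟩ := sv_ex F.reg (mem_Fr.1 hf).1 h hx.1
  exact ⟨v, y, hs, ((sv_Fr F.mu1 hs).1 hf).2⟩

theorem t1_svG {t x : V} (hf : t ∈ T1 G c) (h : G.Adj t x) (hx : tA G c x) :
    ∃ r q, Sv G c t r x q ∧ tQ G c q := by
  obtain ⟨r, q, hs⟩ := sv_ex F.reg (mem_T1.1 hf).1 h hx.1
  rcases (sv_T1 F.mu1 hs).1 hf with h1 | h1
  · exact ⟨r, q, hs, h1.2⟩
  · exact (tA_not_tQ hx h1.1).elim

/-- a neighbour of type `S` of an `A`-vertex is free or in `T1` -/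
theorem s_of_AG {s x : V} (hs : tS G c s) (h : G.Adj x s) (hx : tA G c x) :
    s ∈ Fr G c ∨ s ∈ T1 G c := by
  obtain ⟨m, b, hs'⟩ := sv_ex F.reg hs h.symm hx.1
  rcases tA_or_tQ F.mu1 hs'.cb with h1 | h1
  · exact Or.inl ((sv_Fr F.mu1 hs').2 ⟨hx, h1⟩)
  · exact Or.inr ((sv_T1 F.mu1 hs').2 (Or.inl ⟨hx, h1⟩))

omit F in
theorem frG_not_T1 {s : V} (h : s ∈ Fr G c) : s ∉ T1 G c := by
  intro h'
  have h1 := (mem_Fr.1 h).2
  have h2 := (mem_T1.1 h').2
  omega

omit F in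
theorem frG_tS {s : V} (h : s ∈ Fr G c) : tS G c s := (mem_Fr.1 h).1

omit F in
theorem t1G_tS {s : V} (h : s ∈ T1 G c) : tS G c s := (mem_T1.1 h).1

omit F in
theorem tSG_ne_tA {s x : V} (hs : tS G c s) (hx : tA G c x) : s ≠ x := by
  rintro rfl
  have h1 := hs.1
  rw [hx.1] at h1
  cases h1

/-- the mate -/
theorem sv_mateG {s m a b y : V} (h : Sv G c s m a b) (hy : Rm G c s y) : y = m :=
  rm_uniq (F.mu1 s) hy (sv_rm h)

/-- a free vertex has no neighbour of type `Q` -/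
theorem fr_noQ {s q : V} (h : s ∈ Fr G c) (hq : G.Adj s q) : ¬ tQ G c q := by
  intro h'
  have h1 := (mem_Fr.1 h).2
  unfold nQ at h1
  rw [Finset.card_eq_zero, Finset.filter_eq_empty_iff] at h1
  exact h1 (Finset.mem_univ q) ⟨hq, h'⟩

/-- the square of two free neighbours of an `A`-vertex with prescribed data of the first one -/
theorem sqg_of {s1 s2 a b v1 : V} (h1 : Sv G c s1 v1 a b) (hs1 : s1 ∈ Fr G c) (hs2 : s2 ∈ Fr G c)
    (hne : s1 ≠ s2) (hr : ¬ Rm G c s1 s2) (h : G.Adj a s2) (ha : tA G c a) :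
    ∃ v2 za zb, Sqg G c s1 s2 a b v1 v2 za zb := by
  obtain ⟨b', v1', v2, za, zb, hq⟩ := F.g1 a s1 s2 ha hs1 hs2 hne hr
    (((h1.n3.nb a).2 (by tauto)).symm) h
  have e1 : v1' = v1 := sv_mateG F h1 (sv_rm hq.h1)
  have e2 : b' = b := by
    rcases (h1.n3.nb b').1 ((hq.h1.n3.nb b').2 (by tauto)) with h3 | h3 | h3
    · have h4 := hq.tb.1
      rw [h3, h1.cm] at h4
      cases h4
    · exact (hq.h1.n3.yz h3.symm).elim
    · exact h3
  subst e1 e2
  exact ⟨v2, za, zb, hq⟩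

omit F in
theorem sqg_ne {s1 s2 a b v1 v2 za zb : V} (h : Sqg G c s1 s2 a b v1 v2 za zb) : s1 ≠ s2 :=
  h.ha.n3.xy

theorem sqg_fr1 {s1 s2 a b v1 v2 za zb : V} (h : Sqg G c s1 s2 a b v1 v2 za zb) : s1 ∈ Fr G c :=
  (sv_Fr F.mu1 h.h1).2 ⟨h.ta, h.tb⟩

theorem sqg_fr2 {s1 s2 a b v1 v2 za zb : V} (h : Sqg G c s1 s2 a b v1 v2 za zb) : s2 ∈ Fr G c :=
  (sv_Fr F.mu1 h.h2).2 ⟨h.ta, h.tb⟩

/-- in a square with a live slot the partner is live, or its mate is in `H` -/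
theorem sqg_live {s1 s2 a b v1 v2 za zb : V} (h : Sqg G c s1 s2 a b v1 v2 za zb)
    (hl : LS G c H s1 a) (hv : v2 ∉ H) : Live G c H s2 := by
  refine ⟨sqg_fr2 F h, hl.cx.2 s2 ((h.ha.n3.nb s2).2 (by tauto)), fun w hw => ?_⟩
  rcases (h.h2.n3.nb w).1 hw with h6 | h6 | h6
  · exact h6 ▸ hv
  · exact h6 ▸ hl.cx.1
  · exact h6 ▸ hl.cf.2 b ((h.h1.n3.nb b).2 (by tauto))

omit F in
theorem sqg_ls {s1 s2 a b v1 v2 za zb : V} (h : Sqg G c s1 s2 a b v1 v2 za zb)
    (hl : LS G c H s1 a) (hv : Live G c H s2) : LS G c H s2 a :=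
  ⟨hv.1, h.ta, (h.h2.n3.nb a).2 (by tauto), hv.2, hl.cx⟩

/-- the third neighbour of a hub of a square is bare or the mate of the partner -/
theorem sqg_za {s1 s2 a b v1 v2 za zb : V} (h : Sqg G c s1 s2 a b v1 v2 za zb) :
    Bare G c H s1 za ∨ (za = v2 ∧ v2 ∈ T1 G c) := by
  rcases h.ka with h1 | h1 | h1
  · exact Or.inl fun y hy => (nomate h1.2 y hy).elim
  · left
    rw [h1.1]
    intro y hy
    exact Or.inl (rm_uniq (F.mu1 v1) hy (sv_rm h.h1).symm)
  · exact Or.inr h1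

/-- the data of a `K`-hub -/
theorem khb_of {f x y z v b : V} (hs : Sv G c f v x b) (tx : tA G c x) (tb : tA G c b)
    (ha : Av G c x f y z) (hy : y ∈ T1 G c) (hz : z ∈ T1 G c) (hr : Rm G c y z) :
    ∃ r1 r2 p1 p2, Khb G c f v x b y z r1 r2 p1 p2 := by
  have a1 : G.Adj y x := ((ha.n3.nb y).2 (by tauto)).symm
  have a2 : G.Adj z x := ((ha.n3.nb z).2 (by tauto)).symm
  obtain ⟨m1, r1, h1, q1⟩ := t1_svG F hy a1 tx
  obtain ⟨m2, r2, h2, q2⟩ := t1_svG F hz a2 tx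
  have e1 : z = m1 := sv_mateG F h1 hr
  have e2 : y = m2 := sv_mateG F h2 hr.symm
  subst e1 e2
  obtain ⟨p1, k1⟩ := exists_mate q1.2
  obtain ⟨p2, k2⟩ := exists_mate q2.2
  exact ⟨r1, r2, p1, p2, hs, tx, tb, ha, h1, h2, k1, k2⟩

/-- classification of live slots, explicit form -/
theorem clsG {f x y z v b : V} (hl : LS G c H f x) (hs : Sv G c f v x b) (ha : Av G c x f y z) :
    (Bare G c H f y ∧ Bare G c H f z) ∨
    (∃ t r w, t ∈ T1 G c ∧ Rm G c t r ∧ r ≠ f ∧ r ∉ H ∧ Bare G c H f w ∧ Av G c x f w t) ∨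
    (∃ g v' zx zy, Sqg G c f g x b v v' zx zy ∧ Live G c H g ∧ LS G c H g x) ∨
    ∃ t1 t2 r1 r2 p1 p2, Khb G c f v x b t1 t2 r1 r2 p1 p2 := by
  have tb : tA G c b := ((sv_Fr F.mu1 hs).1 hl.fr).2
  have tx := hl.ta
  -- a free vertex which is not bare
  have key : ∀ g, G.Adj x g → g ≠ f → ¬ Bare G c H f g → g ∈ Fr G c →
      ∃ g v' zx zy, Sqg G c f g x b v v' zx zy ∧ Live G c H g ∧ LS G c H g x := by
    intro g hg hne hb hf
    obtain ⟨m, hm, hmf, hmH⟩ := not_bare hb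
    have hr : ¬ Rm G c f g := by
      intro h
      exact hmf (rm_uniq (F.mu1 g) hm h.symm)
    obtain ⟨m', zx, zy, hq⟩ := sqg_of F hs hl.fr hf (fun h => hne h.symm) hr hg tx
    have e : m' = m := rm_uniq (F.mu1 g) (sv_rm hq.h2) hm
    subst e
    have hv := sqg_live F hq hl hmH
    exact ⟨g, m', zx, zy, hq, hv, sqg_ls hq hl hv⟩
  -- one not bare
  have key2 : ∀ y z, Av G c x f y z → ¬ Bare G c H f y → Bare G c H f z →
      (∃ t r w, t ∈ T1 G c ∧ Rm G c t r ∧ r ≠ f ∧ r ∉ H ∧ Bare G c H f w ∧ Av G c x f w t) ∨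
      (∃ g v' zx zy, Sqg G c f g x b v v' zx zy ∧ Live G c H g ∧ LS G c H g x) := by
    intro y z ha hy hz
    have hxy : G.Adj x y := (ha.n3.nb y).2 (by tauto)
    obtain ⟨m, hm, hmf, hmH⟩ := not_bare hy
    have ty : tS G c y := ⟨ha.cy, mu_of_rm F.mu1 hm⟩
    rcases s_of_AG F ty hxy tx with h | h
    · exact Or.inr (key y hxy ha.n3.xy.symm hy h)
    · exact Or.inl ⟨y, m, z, h, hm, hmf, hmH, hz, av_swap' ha⟩
  by_cases hy : Bare G c H f y
  · by_cases hz : Bare G c H f z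
    · exact Or.inl ⟨hy, hz⟩
    · rcases key2 z y (av_swap' ha) hz hy with h | h
      · exact Or.inr (Or.inl h)
      · exact Or.inr (Or.inr (Or.inl h))
  · by_cases hz : Bare G c H f z
    · rcases key2 y z ha hy hz with h | h
      · exact Or.inr (Or.inl h)
      · exact Or.inr (Or.inr (Or.inl h))
    · right; right
      have hxy : G.Adj x y := (ha.n3.nb y).2 (by tauto)
      have hxz : G.Adj x z := (ha.n3.nb z).2 (by tauto)
      obtain ⟨m, hm, hmf, hmH⟩ := not_bare hy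
      obtain ⟨m', hm', hmf', hmH'⟩ := not_bare hz
      have ty : tS G c y := ⟨ha.cy, mu_of_rm F.mu1 hm⟩
      have tz : tS G c z := ⟨ha.cz, mu_of_rm F.mu1 hm'⟩
      rcases F.f2 x f y z ha tx (frG_tS hl.fr) ty tz with h | h | h
      · exact (hmf (rm_uniq (F.mu1 y) hm h.symm)).elim
      · exact (hmf' (rm_uniq (F.mu1 z) hm' h.symm)).elim
      · rcases s_of_AG F ty hxy tx with h1 | h1
        · exact Or.inl (key y hxy ha.n3.xy.symm hy h1)
        · rcases s_of_AG F tz hxz tx with h2 | h2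
          · exact Or.inl (key z hxz ha.n3.xz.symm hz h2)
          · obtain ⟨r1, r2, p1, p2, hK⟩ := khb_of F hs tx tb ha h1 h2 h
            exact Or.inr ⟨y, z, r1, r2, p1, p2, hK⟩

end facts

theorem bare_NSG {f x y z : V} (hl : LS G c H f x) (ha : Av G c x f y z) (hy : Bare G c H f y)
    (hz : Bare G c H f z) : NS G c H f x := by
  refine ⟨hl, fun w hw hne => ?_⟩
  rcases (ha.n3.nb w).1 hw with h | h | h
  · exact (hne h).elim
  · exact h ▸ hy
  · exact h ▸ hz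

/-- row G_CLS -/
theorem st_GCLS : ST_GCLS := by
  intro V _ _ G _ c j L H F f x hl
  obtain ⟨v, b, hs, hb⟩ := fr_svG F hl.fr hl.adj hl.ta
  obtain ⟨y, z, ha⟩ := av_ex F.reg hl.ta hl.adj.symm
  rcases clsG F hl hs ha with ⟨h1, h2⟩ | ⟨t, r, w, h1, h2, h3, h4, h5, h6⟩ | ⟨g, v', zx, zy, h⟩ | h
  · exact Or.inl (bare_NSG hl ha h1 h2)
  · right; left
    refine ⟨t, r, hl, (h6.n3.nb t).2 (by tauto), h6.n3.xz.symm, h1, h2, h3, h4, ?_⟩
    intro w' hw' h7 h8
    rcases (h6.n3.nb w').1 hw' with h9 | h9 | h9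
    · exact (h7 h9).elim
    · exact h9 ▸ h5
    · exact (h8 h9).elim
  · exact Or.inr (Or.inr (Or.inl ⟨g, b, v, v', zx, zy, h⟩))
  · obtain ⟨t1, t2, r1, r2, p1, p2, hK⟩ := h
    exact Or.inr (Or.inr (Or.inr ⟨v, b, t1, t2, r1, r2, p1, p2, hK⟩))

theorem gsg_N {f x : V} (h : NS G c H f x) : GSG G c L H f x := ⟨h.1, Or.inl h.2⟩

/-- row G_GL -/
theorem st_GGL : ST_GGL := by
  intro V _ _ G _ c j L H H' F hHH f x hg hn
  by_cases cf : Clr G H' f
  swap
  · exact Or.inl cf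
  by_cases cx : Clr G H' x
  swap
  · exact Or.inr (Or.inl cx)
  right; right
  have hl : LS G c H f x := hg.1
  have hl' : LS G c H' f x := ⟨hl.1, hl.2.1, hl.2.2.1, cf, cx⟩
  have nN : ¬ ∀ w, G.Adj x w → w ≠ f → Bare G c H' f w := fun h => hn ⟨hl', Or.inl h⟩
  rcases hg.2 with h | ⟨t, h1, h2, h3, h4⟩ | ⟨g, h1, h2, h3, h4, h5⟩
  · exact (nN fun w hw hne => (h w hw hne).mono hHH).elim
  · left
    have nb : ¬ Bare G c H' f t := by
      intro hb
      refine nN fun w hw hne => ?_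
      by_cases e : w = t
      · exact e ▸ hb
      · exact (h4 w hw hne e).mono hHH
    obtain ⟨r, hr, hrf, hrH⟩ := not_bare nb
    refine ⟨t, r, ⟨hl, h1, h2, h3.1, hr, hrf, fun h => hrH (hHH h), h4⟩, h3, ?_, hrH⟩
    intro hc
    exact hn ⟨hl', Or.inr (Or.inl ⟨t, h1, h2, ⟨h3.1, hc⟩,
      fun w hw hne e => (h4 w hw hne e).mono hHH⟩)⟩
  · right
    obtain ⟨v, y, hs, ty⟩ := fr_svG F hl.fr hl.adj hl.ta
    obtain ⟨v', zx, zy, hq⟩ := sqg_of F hs hl.fr h4.1 (fun h => h2 h.symm) h3 h1 hl.ta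
    have hg' : Live G c H' g := by
      by_contra hgn
      by_cases hv : v' ∈ H'
      · refine nN fun w hw hne => ?_
        rcases (hq.ha.n3.nb w).1 hw with h | h | h
        · exact (hne h).elim
        · subst h
          intro z hz
          right
          rw [sv_mateG F hq.h2 hz]
          exact hv
        · subst h
          rcases sqg_za (H := H') F hq with h6 | h6
          · exact h6
          · exact (cx.2 w hw (h6.1 ▸ hv)).elim
      · exact hgn (sqg_live F hq hl' hv)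
    have no1 : ¬ Live G c H' v := fun h => hn ⟨hl', Or.inr (Or.inr ⟨g, h1, h2, h3, hg',
      Or.inl ⟨v, sv_rm hs, Or.inl h⟩⟩)⟩
    have no2 : ¬ Avl G c H' v := fun h => hn ⟨hl', Or.inr (Or.inr ⟨g, h1, h2, h3, hg',
      Or.inl ⟨v, sv_rm hs, Or.inr h⟩⟩)⟩
    have no3 : ¬ Live G c H' v' := fun h => hn ⟨hl', Or.inr (Or.inr ⟨g, h1, h2, h3, hg',
      Or.inr (Or.inl ⟨v', sv_rm hq.h2, h⟩)⟩)⟩
    have no4 : ∀ y', L v y' → ¬ Avl G c H' y' := fun y' hy h => hn ⟨hl', Or.inr (Or.inr ⟨g, h1, h2,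
      h3, hg', Or.inr (Or.inr ⟨v, y', sv_rm hs, hy, h⟩)⟩)⟩
    refine ⟨g, y, v, v', zx, zy, hq, hl', hg', ?_, no1, no2, no3, no4⟩
    rcases h5 with ⟨m, h5, h6⟩ | ⟨m, h5, h6⟩ | ⟨m, y', h5, h6, h7⟩
    · rw [sv_mateG F hs h5] at h6
      rcases h6 with h6 | h6
      · exact Or.inl h6
      · exact Or.inr (Or.inl h6)
    · rw [sv_mateG F hq.h2 h5] at h6
      exact Or.inr (Or.inr (Or.inl h6))
    · rw [sv_mateG F hs h5] at h6
      exact Or.inr (Or.inr (Or.inr ⟨y', h6, h7⟩))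

/-- the mate of a source is not free -/
theorem src_mate (F : FxG G c j L) {v y s : V} (h : L v y) (hs : Rm G c y s) : s ∉ Fr G c := by
  obtain ⟨w, p, y', n, n', d, h1, h2, h3, h4, h5⟩ := (F.lx.src v y h).2
  have r1 : Rm G c y y' := ⟨(h1.nx.nb y').2 (by tauto), by rw [h1.cx, h1.cx']⟩
  have e : s = y' := rm_uniq (F.mu1 y) hs r1
  subst e
  intro hf
  have tw : tQ G c w := ⟨h1.cq, mu_of_rm F.mu1 ⟨(h1.nq.nb p).2 (by tauto), by rw [h1.cq, h1.cp]⟩⟩
  exact fr_noQ F hf ((h1.nx'.nb w).2 (by tauto)) tw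

/-- row G_SP -/
theorem st_GSP : ST_GSP := by
  intro V _ _ G _ c j L H F u b f f' hu tb hbu hfu hfu' h h'
  obtain ⟨t, g, x, y, m, m', zx, zy, h1, h2, h3, h4, h5, h6, h7, h8⟩ := h
  obtain ⟨t', g', x', y', n, n', zx', zy', k1, k2, k3, k4, k5, k6, k7, k8⟩ := h'
  have ht := t1G_tS h2.1
  have ht' := t1G_tS k2.1
  have rfm : Rm G c f m := sv_rm h3.h1
  have rfn : Rm G c f' n := sv_rm k3.h1
  have hff : f ∈ Fr G c := h4.1
  have hff' : f' ∈ Fr G c := k4.1
  have hut : t ≠ u := by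
    rintro rfl
    exact frG_not_T1 hu h2.1
  have hut' : t' ≠ u := by
    rintro rfl
    exact frG_not_T1 hu k2.1
  by_cases e : t = t'
  · subst e
    rcases h8 with h8 | h8 <;> rcases k8 with k8 | k8
    · subst h8 k8
      exact rm_uniq (F.mu1 _) rfm.symm rfn.symm
    · subst h8
      exact (src_mate F k8 rfm.symm hff).elim
    · subst k8
      exact (src_mate F h8 rfn.symm hff').elim
    · have e := F.lx.inj m n t h8 k8
      subst e
      exact rm_uniq (F.mu1 m) rfm.symm rfn.symm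
  · exfalso
    -- `b` is adjacent to `u`, `t`, `t'`
    obtain ⟨y1, y2, ha⟩ := av_ex F.reg tb hbu
    have hav : ∃ p q, Av G c b u p q ∧ (p = t ∧ q = t') := by
      rcases (ha.n3.nb t).1 h1 with e1 | e1 | e1
      · exact (hut e1).elim
      · rcases (ha.n3.nb t').1 k1 with e2 | e2 | e2
        · exact (hut' e2).elim
        · exact (e (e1.trans e2.symm)).elim
        · exact ⟨y1, y2, ha, e1.symm, e2.symm⟩
      · rcases (ha.n3.nb t').1 k1 with e2 | e2 | e2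
        · exact (hut' e2).elim
        · exact ⟨y2, y1, av_swap' ha, e1.symm, e2.symm⟩
        · exact (e (e1.trans e2.symm)).elim
    obtain ⟨p, q, hav, rfl, rfl⟩ := hav
    rcases F.f2 b u p q hav tb (frG_tS hu) ht ht' with h9 | h9 | h9
    · -- `p` is the mate of `u`
      rcases h8 with h8 | h8
      · subst h8
        exact hfu (rm_uniq (F.mu1 m) rfm.symm h9.symm)
      · exact src_mate F h8 h9.symm hu
    · rcases k8 with k8 | k8
      · subst k8
        exact hfu' (rm_uniq (F.mu1 n) rfn.symm h9.symm)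
      · exact src_mate F k8 h9.symm hu
    · -- mates
      rcases h8 with h8 | h8
      · subst h8
        have e2 : f = q := rm_uniq (F.mu1 m) rfm.symm h9
        subst e2
        exact frG_not_T1 hff k2.1
      · obtain ⟨v, a, hs, ta⟩ := fr_svG F hu hbu.symm tb
        obtain ⟨r1, r2, p1, p2, hK⟩ := khb_of F hs tb ta hav h2.1 k2.1 h9
        obtain ⟨w, pw, y', n1, n2, d, j1, j2, j3, j4, j5⟩ := (F.lx.src m p h8).2
        have r1' : Rm G c p y' := ⟨(j1.nx.nb y').2 (by tauto), by rw [j1.cx, j1.cx']⟩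
        have e3 : y' = q := rm_uniq (F.mu1 p) r1' h9
        subst e3
        have tw : tQ G c w := ⟨j1.cq, mu_of_rm F.mu1 ⟨(j1.nq.nb pw).2 (by tauto), by
          rw [j1.cq, j1.cp]⟩⟩
        have hw1 : w = r1 := by
          rcases (hK.h1.n3.nb w).1 ((j1.nx.nb w).2 (by tauto)) with e4 | e4 | e4
          · have := tw.1
            rw [e4, hK.h1.cm] at this
            cases this
          · exact (tA_not_tQ tb (e4 ▸ tw)).elim
          · exact e4
        have hw2 : w = r2 := by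
          rcases (hK.h2.n3.nb w).1 ((j1.nx'.nb w).2 (by tauto)) with e4 | e4 | e4
          · have := tw.1
            rw [e4, hK.h2.cm] at this
            cases this
          · exact (tA_not_tQ tb (e4 ▸ tw)).elim
          · exact e4
        exact (F.g3 _ _ _ _ _ _ _ _ _ _ hK).1 (hw1.symm.trans hw2)

end Pool.Agent.Helper33.MC
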