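import Mathlib
import Pool.Agent.Helper33.MC.GBas

/-!
MP_4042d8_co, section D, part II: losses of the operation `U`, counting.
-/

set_option autoImplicit false
set_option linter.unusedSectionVars false
set_option linter.unusedVariables false

namespace Pool.Agent.Helper33.MC

open Pool.Agent.Helper27.MC hiding Fr T1 ter
open Pool.Agent.Helper51.MC Pool.Agent.Helper88.MC Pool.Agent.Helper64.MC
open Pool.Agent.Helper91.MC
open Pool.Agent.Helper79.MC (Sqg)
open Pool.Agent.Helper91.MC.GK (Khb)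
open Pool.Agent.Helper96.MC (Td Apx Lx Exm)

section defs

variable {V : Type} [Fintype V] [DecidableEq V] (G : SimpleGraph V) [DecidableRel G.Adj]

/-- effect of `U(s)` on the square of `e`, the mate of the partner `s'` of `s`: `e'` is the partner
of `e`, `k` the mate of `e'`. -/
def EfG (c : V → Bool) (L : V → V → Prop) (H H' : Finset V) (s f : V) : Prop :=
  ∃ s' a b m e za zb e' z y k zx zy, Sqg G c s s' a b m e za zb ∧ Live G c H s' ∧
    Sqg G c e e' z y s' k zx zy ∧ Live G c H' e ∧ Live G c H' e' ∧ ¬ Live G c H' k ∧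
    (f = e ∨ (f = e' ∧ ¬ Avl G c H' k ∧ ∀ y', L k y' → ¬ Avl G c H' y'))

end defs

variable {V : Type} [Fintype V] [DecidableEq V] {G : SimpleGraph V} [DecidableRel G.Adj]
  {c : V → Bool} {j : ℕ} {L : V → V → Prop} {H H' : Finset V}

section facts

variable (F : FxG G c j L)
include F

/-- a free vertex at an `A`-neighbour of the free vertex `s`: `s`, its mate, or its partner -/
theorem fr_nearG {s m a b g : V} (hs : Sv G c s m a b) (ta : tA G c a) (tb : tA G c b)
    (hg : g ∈ Fr G c) (h : G.Adj a g ∨ G.Adj b g) : g = s ∨ g = m ∨ Ptn G c s a b g := by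
  have fs : s ∈ Fr G c := (sv_Fr F.mu1 hs).2 ⟨ta, tb⟩
  by_cases hgs : g = s
  · exact Or.inl hgs
  by_cases hgm : g = m
  · exact Or.inr (Or.inl hgm)
  right; right
  have hr : ¬ Rm G c s g := fun h => hgm (sv_mateG F hs h)
  rcases h with h | h
  · obtain ⟨v2, w1, w2, hq⟩ := sqg_of F hs fs hg (fun h => hgs h.symm) hr h ta
    exact ⟨hg, hgs, h, (hq.hb.n3.nb g).2 (by tauto)⟩
  · obtain ⟨v2, w1, w2, hq⟩ := sqg_of F (sv_swap hs) fs hg (fun h => hgs h.symm) hr h tb
    exact ⟨hg, hgs, (hq.hb.n3.nb g).2 (by tauto), h⟩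

/-- the square of the partner -/
theorem ptn_sqg {s m a b g : V} (h : Ptn G c s a b g) (hgm : g ≠ m) (hs : Sv G c s m a b)
    (ta : tA G c a) (tb : tA G c b) : ∃ e za zb, Sqg G c s g a b m e za zb :=
  sqg_of F hs ((sv_Fr F.mu1 hs).2 ⟨ta, tb⟩) h.1 (fun h' => h.2.1 h'.symm)
    (fun h => hgm (sv_mateG F hs h)) h.2.2.1 ta

theorem sqg_ptn {s g a b m e za zb : V} (h : Sqg G c s g a b m e za zb) : Ptn G c s a b g :=
  ⟨sqg_fr2 F h, h.ha.n3.xy.symm, (h.ha.n3.nb g).2 (by tauto), (h.hb.n3.nb g).2 (by tauto)⟩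

/-- at most two free neighbours -/
theorem two_frG {a f g h : V} (ta : tA G c a) (hf : f ∈ Fr G c) (hg : g ∈ Fr G c) (hh : h ∈ Fr G c)
    (af : G.Adj a f) (ag : G.Adj a g) (ah : G.Adj a h) : f = g ∨ f = h ∨ g = h := by
  by_contra hc
  push Not at hc
  obtain ⟨n1, n2, n3⟩ := hc
  obtain ⟨y, z, hav⟩ := av_ex F.reg ta af
  rcases (hav.n3.nb g).1 ag with e1 | e1 | e1
  · exact n1 e1.symm
  · rcases (hav.n3.nb h).1 ah with e2 | e2 | e2
    · exact n2 e2.symm
    · exact n3 (e1.trans e2.symm)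
    · subst e1 e2
      exact F.g2 a f g h hav ta hf hg hh
  · rcases (hav.n3.nb h).1 ah with e2 | e2 | e2
    · exact n2 e2.symm
    · subst e1 e2
      exact F.g2 a f h g hav ta hf hh hg
    · exact n3 (e1.trans e2.symm)

/-- the partner is unique -/
theorem ptn_uniqG {s a b g g' : V} (h : Ptn G c s a b g) (h' : Ptn G c s a b g')
    (fs : s ∈ Fr G c) (ha : G.Adj a s) (ta : tA G c a) : g = g' := by
  rcases two_frG F ta fs h.1 h'.1 ha h.2.2.1 h'.2.2.1 with h1 | h1 | h1
  · exact (h.2.1 h1.symm).elim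
  · exact (h'.2.1 h1.symm).elim
  · exact h1

/-- `T1`-vertices have only one neighbour of type `A` -/
theorem t1_oneA {t x y : V} (ht : t ∈ T1 G c) (hx : G.Adj t x) (tx : tA G c x) (hy : G.Adj t y)
    (ty : tA G c y) : x = y := by
  obtain ⟨r', q, hs', hq⟩ := t1_svG F ht hx tx
  rcases (hs'.n3.nb y).1 hy with h9 | h9 | h9
  · have := ty.1
    rw [h9, hs'.cm] at this; cases this
  · exact h9.symm
  · exact (tA_not_tQ ty (h9 ▸ hq)).elim

omit F in
theorem no_AA {x y : V} (hx : tA G c x) (hy : tA G c y) : ¬ G.Adj x y := by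
  intro h
  have := false_of_A hx.1 hx.2 h
  rw [hy.1] at this
  cases this

/-- live vertices lost by `U(s)` -/
theorem live_UG {s m a b g : V} (hs : Sv G c s m a b) (ta : tA G c a) (tb : tA G c b)
    (hg : Live G c H g) (hc : ¬ Clr G (H ∪ {s, a, b}) g) : g = s ∨ g = m ∨ Ptn G c s a b g := by
  have hgS := frG_tS hg.1
  rcases not_clr' hg.2 hc with h1 | ⟨w, h1, h2⟩
  · simp only [Finset.mem_insert, Finset.mem_singleton] at h1
    rcases h1 with h1 | h1 | h1
    · exact Or.inl h1
    · exact (tSG_ne_tA hgS ta h1).elim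
    · exact (tSG_ne_tA hgS tb h1).elim
  · simp only [Finset.mem_insert, Finset.mem_singleton] at h2
    rcases h2 with h2 | h2 | h2
    · subst h2
      exact Or.inr (Or.inl (sv_mateG F hs ⟨h1.symm, by rw [hs.cs]; exact hgS.1⟩))
    · exact fr_nearG F hs ta tb hg.1 (Or.inl (h2 ▸ h1.symm))
    · exact fr_nearG F hs ta tb hg.1 (Or.inr (h2 ▸ h1.symm))

/-- live slots which are no longer live after `U(s)` -/
theorem ls_UG {s m a b f z : V} (hs : Sv G c s m a b) (ta : tA G c a) (tb : tA G c b)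
    (hl : LS G c H f z)
    (hc : ¬ Clr G (H ∪ {s, a, b}) f ∨ ¬ Clr G (H ∪ {s, a, b}) z) :
    f = s ∨ f = m ∨ Ptn G c s a b f := by
  have fin2 : (z = a ∨ z = b) → f = s ∨ f = m ∨ Ptn G c s a b f := by
    rintro (h | h)
    · exact fr_nearG F hs ta tb hl.fr (Or.inl (h ▸ hl.adj.symm))
    · exact fr_nearG F hs ta tb hl.fr (Or.inr (h ▸ hl.adj.symm))
  rcases hc with h | h
  · exact live_UG F hs ta tb hl.lv h
  · rcases not_clr' hl.cx h with h1 | ⟨w, h1, h2⟩
    · simp only [Finset.mem_insert, Finset.mem_singleton] at h1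
      rcases h1 with h1 | h1 | h1
      · exact (tSG_ne_tA (frG_tS ((sv_Fr F.mu1 hs).2 ⟨ta, tb⟩)) hl.ta h1.symm).elim
      · exact fin2 (Or.inl h1)
      · exact fin2 (Or.inr h1)
    · simp only [Finset.mem_insert, Finset.mem_singleton] at h2
      rcases h2 with h2 | h2 | h2
      · subst h2
        rcases (hs.n3.nb z).1 h1.symm with h3 | h3 | h3
        · have := hl.ta.1
          rw [h3, hs.cm] at this
          cases this
        · exact fin2 (Or.inl h3)
        · exact fin2 (Or.inr h3)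
      · exact (no_AA hl.ta ta (h2 ▸ h1)).elim
      · exact (no_AA hl.ta tb (h2 ▸ h1)).elim

/-- LU, slots: the good slots lost by `U(s)`. -/
theorem loss_UG {s m a b : V} (hs : Sv G c s m a b) (ta : tA G c a) (tb : tA G c b)
    (cs : Clr G H s) {f z : V} (hg : GSG G c L H f z) (hn : ¬ GSG G c L (H ∪ {s, a, b}) f z) :
    f = s ∨ f = m ∨ Ptn G c s a b f ∨ SpG G c L H a f ∨ SpG G c L H b f ∨
      EfG G c L H (H ∪ {s, a, b}) s f := by
  have fs : s ∈ Fr G c := (sv_Fr F.mu1 hs).2 ⟨ta, tb⟩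
  have hl := hg.1
  have toG : (f = s ∨ f = m ∨ Ptn G c s a b f) → f = s ∨ f = m ∨ Ptn G c s a b f ∨
      SpG G c L H a f ∨ SpG G c L H b f ∨ EfG G c L H (H ∪ {s, a, b}) s f := by tauto
  rcases st_GGL V G c j L H _ F Finset.subset_union_left f z hg hn with h | h |
    ⟨t, r, h1, h2, h3, h4⟩ | ⟨g, y1, v1, v', zx, zy, hq, h1, h2, h3, h4, h5, h6, h7⟩
  · exact toG (ls_UG F hs ta tb hl (Or.inl h))
  · exact toG (ls_UG F hs ta tb hl (Or.inr h))
  · -- spoiled M slot
    obtain ⟨-, k1, k2, k3, k4, k5, k6, k7⟩ := h1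
    have htS := t1G_tS k3
    have fin2 : (z = a ∨ z = b) → f = s ∨ f = m ∨ Ptn G c s a b f := by
      rintro (h | h)
      · exact fr_nearG F hs ta tb hl.fr (Or.inl (h ▸ hl.adj.symm))
      · exact fr_nearG F hs ta tb hl.fr (Or.inr (h ▸ hl.adj.symm))
    rcases not_clr' h2.2 h3 with h7 | ⟨w, h7, h8⟩
    · simp only [Finset.mem_insert, Finset.mem_singleton] at h7
      rcases h7 with h7 | h7 | h7
      · exact (frG_not_T1 fs (h7 ▸ k3)).elim
      · exact (tSG_ne_tA htS ta h7).elim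
      · exact (tSG_ne_tA htS tb h7).elim
    · simp only [Finset.mem_insert, Finset.mem_singleton] at h8
      rcases h8 with h8 | h8 | h8
      · subst h8
        have e := sv_mateG F hs ⟨h7.symm, by rw [hs.cs]; exact htS.1⟩
        rw [e] at k4
        exact (h4 (by rw [rm_uniq (F.mu1 m) k4 (sv_rm hs).symm]; simp)).elim
      · exact toG (fin2 (Or.inl (t1_oneA F k3 k1.symm hl.ta (h8 ▸ h7) ta)))
      · exact toG (fin2 (Or.inr (t1_oneA F k3 k1.symm hl.ta (h8 ▸ h7) tb)))
  · -- square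
    have fK : ∀ g, Clr G (H ∪ {s, a, b}) g → g ≠ s := by
      rintro g hc rfl
      exact hc.1 (by simp)
    have fM : ∀ g, Clr G (H ∪ {s, a, b}) g → g ≠ m := by
      rintro g hc rfl
      exact hc.2 s (sv_rm hs).symm.1 (by simp)
    -- a live mate `k` of a surviving `e` is lost: it is the partner
    have key : ∀ e k, Clr G (H ∪ {s, a, b}) e → Rm G c e k → Live G c H k →
        ¬ Live G c (H ∪ {s, a, b}) k → k ≠ m ∧ Ptn G c s a b k := by
      intro e k hc he hk hk'
      rcases live_UG F hs ta tb hk (fun h => hk' ⟨hk.1, h⟩) with h8 | h8 | h8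
      · exact (fM e hc (sv_mateG F hs (by rw [← h8]; exact he.symm))).elim
      · exact (fK e hc (rm_uniq (F.mu1 m) (by rw [← h8]; exact he.symm) (sv_rm hs).symm)).elim
      · refine ⟨?_, h8⟩
        rintro rfl
        exact fK e hc (rm_uniq (F.mu1 k) he.symm (sv_rm hs).symm)
    have hlv := hl.lv
    by_cases n2 : Live G c H v'
    · right; right; right; right; right
      obtain ⟨hm, hp⟩ := key g v' h2.2 (sv_rm hq.h2) n2 h6
      obtain ⟨e, za, zb, hq1⟩ := ptn_sqg F hp hm hs ta tb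
      have e1 : e = g := (sv_mateG F hq1.h2 (sv_rm hq.h2).symm).symm
      subst e1
      exact ⟨v', a, b, m, e, za, zb, f, z, y1, v1, zx, zy, hq1, n2, hq.swap, h2, h1.lv, h4,
        Or.inr ⟨rfl, h5, h7⟩⟩
    · by_cases n1 : Live G c H v1
      · right; right; right; right; right
        obtain ⟨hm, hp⟩ := key f v1 h1.cf (sv_rm hq.h1) n1 h4
        obtain ⟨e, za, zb, hq1⟩ := ptn_sqg F hp hm hs ta tb
        have e1 : e = f := (sv_mateG F hq1.h2 (sv_rm hq.h1).symm).symm
        subst e1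
        exact ⟨v1, a, b, m, e, za, zb, g, z, y1, v', zx, zy, hq1, n1, hq, h1.lv, h2, h6, Or.inl rfl⟩
      · -- a source is lost
        have src : ∀ t, t ∈ T1 G c → Avl G c H t → ¬ Avl G c (H ∪ {s, a, b}) t → (v1 = t ∨ L v1 t) →
            SpG G c L H a f ∨ SpG G c L H b f := by
          intro t ht hat hnt hor
          have htS := t1G_tS ht
          have hnc : ¬ Clr G (H ∪ {s, a, b}) t := fun h => hnt ⟨ht, h⟩
          have sp : ∀ x, G.Adj t x → SpG G c L H x f := fun x hx =>
            ⟨t, g, z, y1, v1, v', zx, zy, hx.symm, hat, hq, hlv,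
              h2.mono Finset.subset_union_left, n1, n2, hor⟩
          rcases not_clr' hat.2 hnc with h8 | ⟨x, h8, h9⟩
          · simp only [Finset.mem_insert, Finset.mem_singleton] at h8
            rcases h8 with h8 | h8 | h8
            · exact (frG_not_T1 fs (h8 ▸ ht)).elim
            · exact (tSG_ne_tA htS ta h8).elim
            · exact (tSG_ne_tA htS tb h8).elim
          · simp only [Finset.mem_insert, Finset.mem_singleton] at h9
            rcases h9 with h9 | h9 | h9
            · subst h9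
              have e1 : t = m := sv_mateG F hs ⟨h8.symm, by rw [hs.cs]; exact htS.1⟩
              rcases hor with h10 | h10
              · have e2 : f = x := by
                  have k1 : Rm G c m f := by
                    rw [← e1, ← h10]
                    exact (sv_rm hq.h1).symm
                  exact rm_uniq (F.mu1 m) k1 (sv_rm hs).symm
                exact (fK f h1.cf e2).elim
              · exact (src_mate F h10 (by rw [e1]; exact (sv_rm hs).symm) fs).elim
            · exact Or.inl (h9 ▸ sp x h8)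
            · exact Or.inr (h9 ▸ sp x h8)
        have fin : SpG G c L H a f ∨ SpG G c L H b f := by
          rcases h3 with h3 | h3 | h3 | ⟨y', h3, h3'⟩
          · exact (n1 h3).elim
          · exact src v1 h3.1 h3 h5 (Or.inl rfl)
          · exact (n2 h3).elim
          · exact src y' h3'.1 h3' (h7 y' h3) (Or.inr h3)
        rcases fin with h | h
        · exact Or.inr (Or.inr (Or.inr (Or.inl h)))
        · exact Or.inr (Or.inr (Or.inr (Or.inr (Or.inl h))))

/-- LU, branches: a good branch of the free vertex `f` is lost by `U(s)` only if `f` is `s`, its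
mate or its partner. -/
theorem loss_UB {s m a b : V} (hs : Sv G c s m a b) (ta : tA G c a) (tb : tA G c b)
    (cs : Clr G H s) {f v x y t t' q q' k k' : V} (hK : Khb G c f v x y t t' q q' k k')
    (hl : LS G c H f x) (hk : Clr G H k) (hn : ¬ GB G c (H ∪ {s, a, b}) t) :
    f = s ∨ f = m ∨ Ptn G c s a b f := by
  have fs : s ∈ Fr G c := (sv_Fr F.mu1 hs).2 ⟨ta, tb⟩
  by_contra hcon
  have h1 : ¬ (¬ Clr G (H ∪ {s, a, b}) f ∨ ¬ Clr G (H ∪ {s, a, b}) x) := fun h =>
    hcon (ls_UG F hs ta tb hl h)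
  push Not at h1
  have tq : tQ G c k := ⟨by rw [hK.q1.2]; exact hK.h1.cb, mu_of_rm F.mu1 hK.q1.symm⟩
  refine hn ⟨f, v, x, y, t', q, q', k, k', hK, ⟨hl.1, hl.2.1, hl.2.2.1, h1.1, h1.2⟩, ?_⟩
  by_contra hc
  rcases not_clr' hk hc with h2 | ⟨w, h2, h3⟩
  · simp only [Finset.mem_insert, Finset.mem_singleton] at h2
    rcases h2 with h2 | h2 | h2
    · have := tq.1
      rw [h2, hs.cs] at this
      cases this
    · exact tA_not_tQ ta (h2 ▸ tq)
    · exact tA_not_tQ tb (h2 ▸ tq)
  · simp only [Finset.mem_insert, Finset.mem_singleton] at h3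
    rcases h3 with h3 | h3 | h3
    · exact fr_noQ F fs (h3 ▸ h2.symm) tq
    · have := false_of_A ta.1 ta.2 (h3 ▸ h2.symm)
      rw [tq.1] at this
      cases this
    · have := false_of_A tb.1 tb.2 (h3 ▸ h2.symm)
      rw [tq.1] at this
      cases this

/-- the slots of one free vertex -/
theorem cov_fstG (H : Finset V) (f : V) :
    Cov (fun p : V × V => LS G c H p.1 p.2 ∧ p.1 = f) 2 := by
  by_cases h : ∃ z, LS G c H f z
  · obtain ⟨z, hz⟩ := h
    obtain ⟨v, b, hs, hb⟩ := fr_svG F hz.1 hz.2.2.1 hz.2.1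
    refine ⟨{(f, z), (f, b)}, Finset.card_le_two, ?_⟩
    rintro ⟨f', z'⟩ ⟨h1, h2⟩
    simp only at h1 h2
    subst h2
    simp only [Finset.mem_insert, Finset.mem_singleton, Prod.mk.injEq, true_and]
    rcases (hs.n3.nb z').1 h1.2.2.1 with h3 | h3 | h3
    · have := h1.2.1.1
      rw [h3, hs.cm] at this; cases this
    · exact Or.inl h3
    · exact Or.inr h3
  · exact ⟨∅, by simp, fun p hp => (h ⟨p.2, by rw [← hp.2]; exact hp.1⟩).elim⟩

/-- the slots of the free vertices with `P`, at most `n` vertices -/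
theorem cov_fstG' (H : Finset V) {P : V → Prop} {n : ℕ} (h : Cov P n) :
    Cov (fun p : V × V => LS G c H p.1 p.2 ∧ P p.1) (2 * n) := by
  classical
  obtain ⟨L', h1, h2⟩ := h
  choose M hM1 hM2 using cov_fstG F H
  refine ⟨L'.biUnion M, ?_, fun p hp => ?_⟩
  · calc (L'.biUnion M).card ≤ ∑ f ∈ L', (M f).card := Finset.card_biUnion_le
      _ ≤ ∑ f ∈ L', 2 := Finset.sum_le_sum fun f _ => hM1 f
      _ = L'.card * 2 := by rw [Finset.sum_const, smul_eq_mul]
      _ ≤ 2 * n := by omega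
  · exact Finset.mem_biUnion.2 ⟨p.1, h2 _ hp.2, hM2 p.1 p ⟨hp.1, rfl⟩⟩

/-- SPOIL at `b`: at most two slots -/
theorem cov_spG {u b : V} (hu : u ∈ Fr G c) (hub : G.Adj b u) (tb : tA G c b) :
    Cov (fun p : V × V => LS G c H p.1 p.2 ∧ p.1 ≠ u ∧ SpG G c L H b p.1) 2 := by
  refine (cov_fstG' F H (P := fun f => f ≠ u ∧ SpG G c L H b f) (n := 1)
    (Cov.sub fun f f' h h' => st_GSP V G c j L H F u b f f' hu tb hub h.1 h'.1 h.2 h'.2)).mono
    (fun p hp => hp) (by norm_num)

theorem cov_U_liveG {s m a b : V} (hs : Sv G c s m a b) (ta : tA G c a) (tb : tA G c b) :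
    Cov (fun f : V => Live G c H f ∧ ¬ Live G c (H ∪ {s, a, b}) f) 3 := by
  have fs : s ∈ Fr G c := (sv_Fr F.mu1 hs).2 ⟨ta, tb⟩
  refine (((Cov.one s).or (Cov.one m)).or (Cov.sub (P := fun g => Ptn G c s a b g)
    fun p q hp hq => ptn_uniqG F hp hq fs ((hs.n3.nb a).2 (by tauto)).symm ta)).mono
    (fun g hg => ?_) le_rfl
  rcases live_UG F hs ta tb hg.1 (fun h => hg.2 ⟨hg.1.1, h⟩) with h | h | h
  · exact Or.inl (Or.inl h)
  · exact Or.inl (Or.inr h)
  · exact Or.inr h

end facts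

end Pool.Agent.Helper33.MC
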